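import Mathlib

/-!
# Partitions with parts in a set, weighted by the number of parts
-/

namespace Pool.Agent.R456.PP

open Finset Filter Topology

open Classical in
/-- The partitions of `n` with all parts in `A`. -/
noncomputable def PF (A : Set ℕ) (n : ℕ) : Finset (Nat.Partition n) :=
  (Finset.univ : Finset (Nat.Partition n)).filter (fun p => ∀ i ∈ p.parts, i ∈ A)

/-- The sum of `x ^ (number of parts)`. -/
noncomputable def W (A : Set ℕ) (x : ℂ) (n : ℕ) : ℂ :=
  ∑ p ∈ PF A n, x ^ (Multiset.card p.parts)

theorem mem_PF (A : Set ℕ) (n : ℕ) (p : Nat.Partition n) :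
    p ∈ PF A n ↔ ∀ i ∈ p.parts, i ∈ A := by
  classical
  simp [PF]

/-- Adding a part. -/
def addPart (a : ℕ) (ha : 0 < a) {n : ℕ} (h : a ≤ n) (p : Nat.Partition (n - a)) :
    Nat.Partition n where
  parts := a ::ₘ p.parts
  parts_pos := by
    intro i hi
    rcases Multiset.mem_cons.mp hi with rfl | hi
    · exact ha
    · exact p.parts_pos hi
  parts_sum := by
    rw [Multiset.sum_cons, p.parts_sum]
    omega

/-- Removing a part. -/
def removePart (a : ℕ) {n : ℕ} (p : Nat.Partition n) (hp : a ∈ p.parts) :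
    Nat.Partition (n - a) where
  parts := p.parts.erase a
  parts_pos := by
    intro i hi
    exact p.parts_pos (Multiset.mem_of_mem_erase hi)
  parts_sum := by
    have h := Multiset.sum_erase hp
    rw [p.parts_sum] at h
    omega

theorem W_rec (A : Set ℕ) (a : ℕ) (ha : 0 < a) (haA : a ∉ A) (x : ℂ) (n : ℕ) :
    W (insert a A) x n = W A x n + if a ≤ n then x * W (insert a A) x (n - a) else 0 := by
  classical
  unfold W
  rw [← Finset.sum_filter_add_sum_filter_not (PF (insert a A) n) (fun p => a ∉ p.parts)]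
  congr 1
  · apply Finset.sum_congr _ (fun _ _ => rfl)
    ext p
    rw [Finset.mem_filter, mem_PF, mem_PF]
    constructor
    · rintro ⟨h1, h2⟩ i hi
      rcases h1 i hi with h | h
      · subst h
        exact absurd hi h2
      · exact h
    · intro h
      exact ⟨fun i hi => Or.inr (h i hi), fun hmem => haA (h a hmem)⟩
  · split_ifs with han
    · rw [Finset.mul_sum]
      refine Finset.sum_bij' (fun p hp => removePart a p (by
          rw [Finset.mem_filter] at hp
          simpa using hp.2)) (fun q _ => addPart a ha han q) ?_ ?_ ?_ ?_ ?_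
      · intro p hp
        rw [Finset.mem_filter, mem_PF] at hp
        rw [mem_PF]
        intro i hi
        exact hp.1 i (Multiset.mem_of_mem_erase hi)
      · intro q hq
        rw [mem_PF] at hq
        rw [Finset.mem_filter, mem_PF]
        refine ⟨?_, ?_⟩
        · intro i hi
          rcases Multiset.mem_cons.mp hi with h | h
          · exact Or.inl h
          · exact hq i h
        · simp [addPart]
      · intro p hp
        rw [Finset.mem_filter] at hp
        have hmem : a ∈ p.parts := by simpa using hp.2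
        ext1
        exact Multiset.cons_erase hmem
      · intro q hq
        ext1
        simp [addPart, removePart]
      · intro p hp
        rw [Finset.mem_filter] at hp
        have hmem : a ∈ p.parts := by simpa using hp.2
        have h1 : Multiset.card (p.parts.erase a) + 1 = Multiset.card p.parts :=
          Multiset.card_erase_add_one hmem
        show x ^ (Multiset.card p.parts) = x * x ^ (Multiset.card (p.parts.erase a))
        rw [← h1, pow_succ]
        ring
    · apply Finset.sum_eq_zero
      intro p hp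
      exfalso
      rw [Finset.mem_filter] at hp
      have hmem : a ∈ p.parts := by simpa using hp.2
      exact han (Nat.Partition.le_of_mem_parts hmem)

/-- The number of partitions with parts in `A`. -/
noncomputable def cnt (A : Set ℕ) (n : ℕ) : ℝ := ((PF A n).card : ℝ)

theorem W_one (A : Set ℕ) (n : ℕ) : W A 1 n = (cnt A n : ℂ) := by
  simp [W, cnt]

theorem cnt_nonneg (A : Set ℕ) (n : ℕ) : 0 ≤ cnt A n := by
  unfold cnt
  positivity

theorem cnt_mono {A B : Set ℕ} (h : A ⊆ B) (n : ℕ) : cnt A n ≤ cnt B n := by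
  unfold cnt
  have : (PF A n).card ≤ (PF B n).card := by
    apply Finset.card_le_card
    intro p hp
    rw [mem_PF] at hp ⊢
    exact fun i hi => h (hp i hi)
  exact_mod_cast this

theorem norm_W_le (A : Set ℕ) (x : ℂ) (hx : ‖x‖ ≤ 1) (n : ℕ) : ‖W A x n‖ ≤ cnt A n := by
  unfold W cnt
  refine (norm_sum_le _ _).trans ?_
  have : ∑ p ∈ PF A n, ‖x ^ (Multiset.card p.parts)‖ ≤ ∑ _p ∈ PF A n, (1 : ℝ) := by
    apply Finset.sum_le_sum
    intro p _
    rw [norm_pow]
    exact pow_le_one₀ (norm_nonneg _) hx
  simpa using this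

theorem cnt_rec (A : Set ℕ) (a : ℕ) (ha : 0 < a) (haA : a ∉ A) (n : ℕ) :
    cnt (insert a A) n = cnt A n + if a ≤ n then cnt (insert a A) (n - a) else 0 := by
  have h := W_rec A a ha haA 1 n
  rw [W_one, W_one] at h
  split_ifs at h ⊢ with han
  · rw [W_one, one_mul] at h
    exact_mod_cast h
  · exact_mod_cast h

/-- Squares up to `J²`. -/
def sqUpTo (J : ℕ) : Set ℕ := {x | ∃ j, 1 ≤ j ∧ j ≤ J ∧ x = j ^ 2}

/-- All positive squares. -/
def sq : Set ℕ := {x | ∃ j, 1 ≤ j ∧ x = j ^ 2}

theorem sqUpTo_zero : sqUpTo 0 = ∅ := by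
  ext x
  simp only [sqUpTo, Set.mem_ofPred_eq, Set.mem_empty_iff_false, iff_false]
  rintro ⟨j, h1, h2, _⟩
  omega

theorem sqUpTo_succ (J : ℕ) : sqUpTo (J + 1) = insert ((J + 1) ^ 2) (sqUpTo J) := by
  ext x
  simp only [sqUpTo, Set.mem_ofPred_eq, Set.mem_insert_iff]
  constructor
  · rintro ⟨j, h1, h2, h3⟩
    rcases Nat.lt_or_ge j (J + 1) with h | h
    · exact Or.inr ⟨j, h1, by omega, h3⟩
    · have : j = J + 1 := by omega
      subst this
      exact Or.inl h3
  · rintro (h | ⟨j, h1, h2, h3⟩)
    · exact ⟨J + 1, by omega, le_refl _, h⟩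
    · exact ⟨j, h1, by omega, h3⟩

theorem notMem_sqUpTo (J : ℕ) : (J + 1) ^ 2 ∉ sqUpTo J := by
  rintro ⟨j, h1, h2, h3⟩
  have h4 : J + 1 = j := Nat.pow_left_injective (n := 2) (by norm_num) h3
  omega

theorem sqUpTo_subset (J : ℕ) : sqUpTo J ⊆ sq := by
  rintro x ⟨j, h1, _, h3⟩
  exact ⟨j, h1, h3⟩

theorem PF_eq (J n : ℕ) (h : n < (J + 1) ^ 2) : PF (sqUpTo J) n = PF sq n := by
  ext p
  rw [mem_PF, mem_PF]
  constructor
  · intro h1 i hi
    exact sqUpTo_subset J (h1 i hi)
  · intro h1 i hi
    obtain ⟨j, h2, h3⟩ := h1 i hi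
    refine ⟨j, h2, ?_, h3⟩
    have h4 : i ≤ n := Nat.Partition.le_of_mem_parts hi
    by_contra hcon
    push Not at hcon
    have : (J + 1) ^ 2 ≤ j ^ 2 := Nat.pow_le_pow_left hcon 2
    omega

theorem W_empty (x : ℂ) (n : ℕ) : W ∅ x n = if n = 0 then 1 else 0 := by
  classical
  unfold W
  split_ifs with h
  · subst h
    have : PF ∅ 0 = Finset.univ := by
      ext p
      rw [mem_PF]
      simp only [Set.mem_empty_iff_false, imp_false, Finset.mem_univ, iff_true]
      intro i hi
      have h1 := p.parts_pos hi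
      have h2 := Nat.Partition.le_of_mem_parts hi
      omega
    rw [this]
    rw [Fintype.sum_eq_single (Nat.Partition.indiscrete 0)]
    · simp
    · intro p hp
      exact absurd (Subsingleton.elim _ _) hp
  · apply Finset.sum_eq_zero
    intro p hp
    exfalso
    rw [mem_PF] at hp
    have h1 : p.parts = 0 := by
      rw [Multiset.eq_zero_iff_forall_notMem]
      intro i hi
      exact hp i hi
    have h2 := p.parts_sum
    rw [h1] at h2
    simp at h2
    exact h h2.symm

end Pool.Agent.R456.PP
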