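import Mathlib
import Pool.Agent.R456.PP.Defs

/-!
# The generating function of partitions into squares
-/

namespace Pool.Agent.R456.PP

open Finset Filter Topology

theorem lt_succ_sq {n J : ℕ} (h : n ≤ J) : n < (J + 1) ^ 2 := by
  have h1 : J + 1 ≤ (J + 1) ^ 2 := Nat.le_self_pow (by norm_num) _
  omega

theorem inv_one_sub_le_exp (ρ y : ℝ) (hρ : ρ < 1) (hy0 : 0 ≤ y) (hy : y ≤ ρ) :
    (1 - y)⁻¹ ≤ Real.exp (y / (1 - ρ)) := by
  have h1 : 0 < 1 - y := by linarith
  have h2 : 0 < 1 - ρ := by linarith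
  have h3 : (1 - y)⁻¹ = 1 + y / (1 - y) := by field_simp; ring
  have h4 : y / (1 - y) ≤ y / (1 - ρ) := div_le_div_of_nonneg_left hy0 h2 (by linarith)
  have h5 := Real.add_one_le_exp (y / (1 - ρ))
  linarith

theorem partial_bound (ρ : ℝ) (h0 : 0 ≤ ρ) (h1 : ρ < 1) (J M : ℕ) :
    ∑ n ∈ range M, cnt (sqUpTo J) n * ρ ^ n ≤ ∏ j ∈ range J, (1 - ρ ^ ((j + 1) ^ 2))⁻¹ := by
  induction J with
  | zero =>
    have h2 : ∀ n, cnt (sqUpTo 0) n = if n = 0 then 1 else 0 := by
      intro n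
      have h3 := W_one (sqUpTo 0) n
      rw [sqUpTo_zero, W_empty] at h3
      rw [sqUpTo_zero]
      split_ifs at h3 ⊢
      · exact_mod_cast h3.symm
      · exact_mod_cast h3.symm
    rw [Finset.prod_range_zero]
    simp only [h2]
    rcases Nat.eq_zero_or_pos M with rfl | hM
    · simp
    · rw [Finset.sum_eq_single 0]
      · simp
      · intro n _ hn
        simp [hn]
      · intro h
        simp at h
        omega
  | succ J ih =>
    set a := (J + 1) ^ 2 with ha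
    have hapos : 0 < a := by positivity
    set T := ∑ n ∈ range M, cnt (sqUpTo (J + 1)) n * ρ ^ n with hT
    have hTnn : 0 ≤ T := Finset.sum_nonneg (fun n _ => mul_nonneg (cnt_nonneg _ _) (by positivity))
    have hrec : T = ∑ n ∈ range M, cnt (sqUpTo J) n * ρ ^ n +
        ∑ n ∈ range M, (if a ≤ n then cnt (sqUpTo (J + 1)) (n - a) else 0) * ρ ^ n := by
      rw [hT, ← Finset.sum_add_distrib]
      apply Finset.sum_congr rfl
      intro n _
      rw [sqUpTo_succ, cnt_rec (sqUpTo J) a hapos (notMem_sqUpTo J) n]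
      ring
    have hshift : ∑ n ∈ range M, (if a ≤ n then cnt (sqUpTo (J + 1)) (n - a) else 0) * ρ ^ n ≤
        ρ ^ a * T := by
      have e1 : ∑ n ∈ range M, (if a ≤ n then cnt (sqUpTo (J + 1)) (n - a) else 0) * ρ ^ n =
          ∑ n ∈ Ico a M, cnt (sqUpTo (J + 1)) (n - a) * ρ ^ n := by
        have e2 : Ico a M = (range M).filter (fun n => a ≤ n) := by
          ext n
          simp only [Finset.mem_Ico, Finset.mem_filter, Finset.mem_range]
          exact and_comm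
        rw [e2, Finset.sum_filter]
        apply Finset.sum_congr rfl
        intro n _
        split_ifs <;> simp
      rw [e1, Finset.sum_Ico_eq_sum_range, hT, Finset.mul_sum]
      calc ∑ k ∈ range (M - a), cnt (sqUpTo (J + 1)) (a + k - a) * ρ ^ (a + k)
          = ∑ k ∈ range (M - a), ρ ^ a * (cnt (sqUpTo (J + 1)) k * ρ ^ k) := by
            apply Finset.sum_congr rfl
            intro k _
            rw [Nat.add_sub_cancel_left, pow_add]
            ring
        _ ≤ ∑ k ∈ range M, ρ ^ a * (cnt (sqUpTo (J + 1)) k * ρ ^ k) := by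
            apply Finset.sum_le_sum_of_subset_of_nonneg
            · intro k hk
              simp only [Finset.mem_range] at hk ⊢
              omega
            · intro k _ _
              have := cnt_nonneg (sqUpTo (J + 1)) k
              positivity
    have hρa : ρ ^ a < 1 := pow_lt_one₀ h0 h1 hapos.ne'
    have hpos : 0 < 1 - ρ ^ a := by linarith
    rw [Finset.prod_range_succ]
    have h3 : T * (1 - ρ ^ a) ≤ ∏ j ∈ range J, (1 - ρ ^ ((j + 1) ^ 2))⁻¹ := by
      have : T * (1 - ρ ^ a) = T - ρ ^ a * T := by ring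
      rw [this]
      linarith
    rw [← div_eq_mul_inv, le_div_iff₀ hpos]
    exact h3

theorem prod_bound (ρ : ℝ) (h0 : 0 ≤ ρ) (h1 : ρ < 1) (J : ℕ) :
    ∏ j ∈ range J, (1 - ρ ^ ((j + 1) ^ 2))⁻¹ ≤ Real.exp ((1 - ρ)⁻¹ / (1 - ρ)) := by
  have h2 : 0 < 1 - ρ := by linarith
  calc ∏ j ∈ range J, (1 - ρ ^ ((j + 1) ^ 2))⁻¹
      ≤ ∏ j ∈ range J, Real.exp (ρ ^ ((j + 1) ^ 2) / (1 - ρ)) := by
        apply Finset.prod_le_prod
        · intro j _
          have : ρ ^ ((j + 1) ^ 2) < 1 := pow_lt_one₀ h0 h1 (by positivity)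
          have : 0 < 1 - ρ ^ ((j + 1) ^ 2) := by linarith
          positivity
        · intro j _
          apply inv_one_sub_le_exp ρ _ h1 (by positivity)
          calc ρ ^ ((j + 1) ^ 2) ≤ ρ ^ 1 :=
                pow_le_pow_of_le_one h0 h1.le (Nat.one_le_pow _ _ (by omega))
            _ = ρ := pow_one ρ
    _ = Real.exp (∑ j ∈ range J, ρ ^ ((j + 1) ^ 2) / (1 - ρ)) := (Real.exp_sum _ _).symm
    _ ≤ Real.exp ((1 - ρ)⁻¹ / (1 - ρ)) := by
        apply Real.exp_le_exp.mpr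
        rw [← Finset.sum_div]
        apply div_le_div_of_nonneg_right _ h2.le
        calc ∑ j ∈ range J, ρ ^ ((j + 1) ^ 2) ≤ ∑ j ∈ range J, ρ ^ j := by
              apply Finset.sum_le_sum
              intro j _
              exact pow_le_pow_of_le_one h0 h1.le (lt_succ_sq (le_refl j)).le
          _ ≤ ∑' j : ℕ, ρ ^ j :=
              (summable_geometric_of_lt_one h0 h1).sum_le_tsum _ (fun j _ => by positivity)
          _ = (1 - ρ)⁻¹ := tsum_geometric_of_lt_one h0 h1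

theorem summable_cnt (ρ : ℝ) (h0 : 0 ≤ ρ) (h1 : ρ < 1) :
    Summable (fun n : ℕ => cnt sq n * ρ ^ n) := by
  apply summable_of_sum_range_le (c := Real.exp ((1 - ρ)⁻¹ / (1 - ρ)))
  · intro n
    exact mul_nonneg (cnt_nonneg _ _) (by positivity)
  · intro M
    have h2 : ∑ n ∈ range M, cnt sq n * ρ ^ n = ∑ n ∈ range M, cnt (sqUpTo M) n * ρ ^ n := by
      apply Finset.sum_congr rfl
      intro n hn
      have hn' := Finset.mem_range.mp hn
      unfold cnt
      rw [PF_eq M n (lt_succ_sq hn'.le)]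
    rw [h2]
    exact (partial_bound ρ h0 h1 M M).trans (prod_bound ρ h0 h1 M)

theorem norm_term_le (x z : ℂ) (hx : ‖x‖ ≤ 1) (J n : ℕ) :
    ‖W (sqUpTo J) x n * z ^ n‖ ≤ cnt sq n * ‖z‖ ^ n := by
  rw [norm_mul, norm_pow]
  apply mul_le_mul_of_nonneg_right _ (by positivity)
  exact (norm_W_le _ x hx n).trans (cnt_mono (sqUpTo_subset J) n)

theorem norm_term_le' (x z : ℂ) (hx : ‖x‖ ≤ 1) (n : ℕ) :
    ‖W sq x n * z ^ n‖ ≤ cnt sq n * ‖z‖ ^ n := by
  rw [norm_mul, norm_pow]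
  exact mul_le_mul_of_nonneg_right (norm_W_le _ x hx n) (by positivity)

theorem summable_term (x z : ℂ) (hx : ‖x‖ ≤ 1) (hz : ‖z‖ < 1) (J : ℕ) :
    Summable (fun n : ℕ => W (sqUpTo J) x n * z ^ n) :=
  Summable.of_norm_bounded (summable_cnt ‖z‖ (norm_nonneg _) hz) (norm_term_le x z hx J)

theorem summable_term' (x z : ℂ) (hx : ‖x‖ ≤ 1) (hz : ‖z‖ < 1) :
    Summable (fun n : ℕ => W sq x n * z ^ n) :=
  Summable.of_norm_bounded (summable_cnt ‖z‖ (norm_nonneg _) hz) (norm_term_le' x z hx)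

/-- The generating function. -/
noncomputable def F (x z : ℂ) : ℂ := ∑' n : ℕ, W sq x n * z ^ n

theorem FJ_rec (x z : ℂ) (hx : ‖x‖ ≤ 1) (hz : ‖z‖ < 1) (J : ℕ) :
    (∑' n : ℕ, W (sqUpTo (J + 1)) x n * z ^ n) * (1 - x * z ^ ((J + 1) ^ 2)) =
      ∑' n : ℕ, W (sqUpTo J) x n * z ^ n := by
  set a := (J + 1) ^ 2 with ha
  have hapos : 0 < a := by positivity
  have hs1 := summable_term x z hx hz (J + 1)
  have hs0 := summable_term x z hx hz J
  set g : ℕ → ℂ := fun n => (if a ≤ n then x * W (sqUpTo (J + 1)) x (n - a) else 0) * z ^ n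
    with hg
  have heq : ∀ n, W (sqUpTo (J + 1)) x n * z ^ n = W (sqUpTo J) x n * z ^ n + g n := by
    intro n
    have h := W_rec (sqUpTo J) a hapos (notMem_sqUpTo J) x n
    rw [← sqUpTo_succ] at h
    rw [h, hg]
    ring
  have hgs : Summable g := by
    have : g = fun n => W (sqUpTo (J + 1)) x n * z ^ n - W (sqUpTo J) x n * z ^ n := by
      funext n
      rw [heq n]
      ring
    rw [this]
    exact hs1.sub hs0
  have hshift : ∑' n, g n = x * z ^ a * ∑' n, W (sqUpTo (J + 1)) x n * z ^ n := by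
    rw [← hgs.sum_add_tsum_nat_add a]
    have h1 : ∑ i ∈ range a, g i = 0 := by
      apply Finset.sum_eq_zero
      intro i hi
      have hi' := Finset.mem_range.mp hi
      simp only [hg]
      rw [if_neg (by omega), zero_mul]
    rw [h1, zero_add, ← tsum_mul_left]
    congr 1
    funext n
    simp only [hg]
    rw [if_pos (by omega), Nat.add_sub_cancel, pow_add]
    ring
  have htot : ∑' n, W (sqUpTo (J + 1)) x n * z ^ n =
      ∑' n, W (sqUpTo J) x n * z ^ n + ∑' n, g n := by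
    rw [← hs0.tsum_add hgs]
    exact tsum_congr heq
  rw [mul_sub, mul_one]
  rw [hshift] at htot
  linear_combination htot

/-- `-log (1 - y)` as a power series. -/
noncomputable def ell (y : ℂ) : ℂ := ∑' m : ℕ, y ^ (m + 1) / ((m : ℂ) + 1)

theorem exp_ell (y : ℂ) (hy : ‖y‖ < 1) : Complex.exp (ell y) * (1 - y) = 1 := by
  have h := Complex.hasSum_taylorSeries_neg_log' hy
  have h2 : ell y = -Complex.log (1 - y) := by
    unfold ell
    rw [← h.tsum_eq]
  have h3 : (1 : ℂ) - y ≠ 0 := by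
    intro h0
    have : y = 1 := by linear_combination -h0
    rw [this] at hy
    simp at hy
  rw [h2, Complex.exp_neg, Complex.exp_log h3, inv_mul_cancel₀ h3]

theorem FJ_eq (x z : ℂ) (hx : ‖x‖ ≤ 1) (hz : ‖z‖ < 1) (J : ℕ) :
    ∑' n : ℕ, W (sqUpTo J) x n * z ^ n =
      Complex.exp (∑ j ∈ range J, ell (x * z ^ ((j + 1) ^ 2))) := by
  induction J with
  | zero =>
    rw [Finset.sum_range_zero, Complex.exp_zero, tsum_eq_single 0]
    · rw [sqUpTo_zero, W_empty]
      simp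
    · intro n hn
      rw [sqUpTo_zero, W_empty, if_neg hn, zero_mul]
  | succ J ih =>
    have hlt : ‖x * z ^ ((J + 1) ^ 2)‖ < 1 := by
      rw [norm_mul, norm_pow]
      have h1 : ‖z‖ ^ ((J + 1) ^ 2) < 1 := pow_lt_one₀ (norm_nonneg _) hz (by positivity)
      have h2 : 0 ≤ ‖z‖ ^ ((J + 1) ^ 2) := by positivity
      calc ‖x‖ * ‖z‖ ^ ((J + 1) ^ 2) ≤ 1 * ‖z‖ ^ ((J + 1) ^ 2) :=
            mul_le_mul_of_nonneg_right hx h2
        _ < 1 := by linarith
    have h3 := exp_ell _ hlt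
    have h4 := FJ_rec x z hx hz J
    rw [ih] at h4
    rw [Finset.sum_range_succ, Complex.exp_add, ← h4, mul_assoc,
      mul_comm (1 - x * z ^ ((J + 1) ^ 2)), h3, mul_one]

/-- Double summability. -/
theorem summable_double (x z : ℂ) (hx : ‖x‖ ≤ 1) (hz : ‖z‖ < 1) :
    Summable (fun q : ℕ × ℕ => (x * z ^ ((q.1 + 1) ^ 2)) ^ (q.2 + 1) / ((q.2 : ℂ) + 1)) := by
  have h1 : Summable (fun q : ℕ × ℕ => ‖z‖ ^ q.1 * ‖z‖ ^ q.2) :=
    (summable_geometric_of_lt_one (norm_nonneg _) hz).mul_of_nonneg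
      (summable_geometric_of_lt_one (norm_nonneg _) hz)
      (fun _ => by positivity) (fun _ => by positivity)
  apply Summable.of_norm_bounded h1
  rintro ⟨j, m⟩
  simp only
  rw [norm_div, norm_pow, norm_mul, norm_pow]
  have e1 : ‖((m : ℂ) + 1)‖ = (m : ℝ) + 1 := by
    have : ((m : ℂ) + 1) = ((m + 1 : ℕ) : ℂ) := by push_cast; ring
    rw [this, Complex.norm_natCast]
    push_cast
    ring
  rw [e1]
  have h2 : (‖x‖ * ‖z‖ ^ ((j + 1) ^ 2)) ^ (m + 1) ≤ (‖z‖ ^ ((j + 1) ^ 2)) ^ (m + 1) := by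
    apply pow_le_pow_left₀ (by positivity)
    calc ‖x‖ * ‖z‖ ^ ((j + 1) ^ 2) ≤ 1 * ‖z‖ ^ ((j + 1) ^ 2) :=
          mul_le_mul_of_nonneg_right hx (by positivity)
      _ = _ := one_mul _
  have h3 : (‖z‖ ^ ((j + 1) ^ 2)) ^ (m + 1) ≤ ‖z‖ ^ (j + m) := by
    rw [← pow_mul]
    apply pow_le_pow_of_le_one (norm_nonneg _) hz.le
    nlinarith [Nat.zero_le j, Nat.zero_le m, Nat.zero_le (j * m), Nat.zero_le (j ^ 2 * m)]
  have h4 : (1 : ℝ) ≤ (m : ℝ) + 1 := by
    have : (0 : ℝ) ≤ m := Nat.cast_nonneg m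
    linarith
  calc (‖x‖ * ‖z‖ ^ ((j + 1) ^ 2)) ^ (m + 1) / ((m : ℝ) + 1)
      ≤ (‖x‖ * ‖z‖ ^ ((j + 1) ^ 2)) ^ (m + 1) := div_le_self (by positivity) h4
    _ ≤ ‖z‖ ^ (j + m) := h2.trans h3
    _ = ‖z‖ ^ j * ‖z‖ ^ m := pow_add _ _ _

/-- The logarithm of the generating function. -/
noncomputable def L (x z : ℂ) : ℂ :=
  ∑' m : ℕ, x ^ (m + 1) / ((m : ℂ) + 1) * ∑' j : ℕ, (z ^ (m + 1)) ^ ((j + 1) ^ 2)

theorem F_eq_exp_L (x z : ℂ) (hx : ‖x‖ ≤ 1) (hz : ‖z‖ < 1) : F x z = Complex.exp (L x z) := by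
  have h1 : Tendsto (fun J : ℕ => ∑' n : ℕ, W (sqUpTo J) x n * z ^ n) atTop (𝓝 (F x z)) := by
    unfold F
    apply tendsto_tsum_of_dominated_convergence (summable_cnt ‖z‖ (norm_nonneg _) hz)
    · intro n
      apply tendsto_const_nhds.congr'
      filter_upwards [eventually_ge_atTop n] with J hJ
      unfold W
      rw [PF_eq J n (lt_succ_sq hJ)]
    · filter_upwards with J n
      exact norm_term_le x z hx J n
  have hd := summable_double x z hx hz
  have h2 : Summable (fun j : ℕ => ell (x * z ^ ((j + 1) ^ 2))) := hd.prod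
  have h3 : Tendsto (fun J : ℕ => ∑' n : ℕ, W (sqUpTo J) x n * z ^ n) atTop
      (𝓝 (Complex.exp (∑' j : ℕ, ell (x * z ^ ((j + 1) ^ 2))))) := by
    have h4 := h2.hasSum.tendsto_sum_nat
    have h5 := (Complex.continuous_exp.tendsto _).comp h4
    apply h5.congr
    intro J
    exact (FJ_eq x z hx hz J).symm
  have h6 : ∑' j : ℕ, ell (x * z ^ ((j + 1) ^ 2)) = L x z := by
    have hd' : Summable (Function.uncurry (fun j m : ℕ =>
        (x * z ^ ((j + 1) ^ 2)) ^ (m + 1) / ((m : ℂ) + 1))) := hd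
    have hcomm : ∑' j : ℕ, ∑' m : ℕ, (x * z ^ ((j + 1) ^ 2)) ^ (m + 1) / ((m : ℂ) + 1) =
        ∑' m : ℕ, ∑' j : ℕ, (x * z ^ ((j + 1) ^ 2)) ^ (m + 1) / ((m : ℂ) + 1) :=
      (Summable.tsum_comm hd').symm
    unfold ell L
    rw [hcomm]
    apply tsum_congr
    intro m
    rw [← tsum_mul_left]
    apply tsum_congr
    intro j
    rw [mul_pow, ← pow_mul, ← pow_mul, Nat.mul_comm (m + 1)]
    ring
  rw [← h6]
  exact tendsto_nhds_unique h1 h3

end Pool.Agent.R456.PP
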