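import Mathlib
import Pool.Agent.R456.PP.Gen

/-!
# Gaussian sums with small parameter
-/

namespace Pool.Agent.R456.PP

open Finset Filter Topology Complex

/-- The summand `exp (-c w (j+1)²)`. -/
noncomputable def g (w : ℂ) (c : ℝ) (j : ℕ) : ℂ :=
  cexp (-(w * ((c * ((j : ℝ) + 1) ^ 2 : ℝ) : ℂ)))

theorem norm_g (w : ℂ) (hw : w.re = 1) (c : ℝ) (j : ℕ) :
    ‖g w c j‖ = Real.exp (-(c * ((j : ℝ) + 1) ^ 2)) := by
  unfold g
  rw [Complex.norm_exp, Complex.neg_re, Complex.re_mul_ofReal, hw, one_mul]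

theorem tele (s : ℝ) (hs : 0 < s) (n : ℕ) :
    s * Real.exp (-(s ^ 2 * ((n : ℝ) + 1) ^ 2)) ≤
      2 * (1 / (1 + s * n)) - 2 * (1 / (1 + s * ((n : ℝ) + 1))) := by
  have hn : (0 : ℝ) ≤ n := Nat.cast_nonneg n
  set y := s * ((n : ℝ) + 1) with hy
  have hypos : 0 < y := by positivity
  have e1 : s ^ 2 * ((n : ℝ) + 1) ^ 2 = y ^ 2 := by rw [hy]; ring
  have e2 : s * n = y - s := by rw [hy]; ring
  rw [e1, e2]
  have hys : 0 ≤ y - s := by rw [← e2]; positivity
  have h1 : Real.exp (-(y ^ 2)) ≤ 1 / (1 + y ^ 2) := by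
    rw [Real.exp_neg, ← one_div]
    apply one_div_le_one_div_of_le (by positivity)
    have := Real.add_one_le_exp (y ^ 2)
    linarith
  have h2 : 1 / (1 + y ^ 2) ≤ 2 / (1 + y) ^ 2 := by
    rw [div_le_div_iff₀ (by positivity) (by positivity)]
    nlinarith [sq_nonneg (y - 1)]
  have h3 : 2 * (1 / (1 + (y - s))) - 2 * (1 / (1 + y)) = 2 * s / ((1 + (y - s)) * (1 + y)) := by
    have : (1 + (y - s)) ≠ 0 := by positivity
    have : (1 + y) ≠ 0 := by positivity
    field_simp
    ring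
  rw [h3]
  calc s * Real.exp (-(y ^ 2)) ≤ s * (2 / (1 + y) ^ 2) :=
        mul_le_mul_of_nonneg_left (h1.trans h2) hs.le
    _ = 2 * s / ((1 + y) * (1 + y)) := by ring
    _ ≤ 2 * s / ((1 + (y - s)) * (1 + y)) := by
        apply div_le_div_of_nonneg_left (by positivity) (by positivity)
        apply mul_le_mul_of_nonneg_right _ (by positivity)
        linarith

theorem sum_exp_le (c : ℝ) (hc : 0 < c) (M : ℕ) :
    Real.sqrt c * ∑ j ∈ range M, Real.exp (-(c * ((j : ℝ) + 1) ^ 2)) ≤ 2 := by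
  set s := Real.sqrt c with hs
  have hspos : 0 < s := Real.sqrt_pos.mpr hc
  have hsc : s ^ 2 = c := Real.sq_sqrt hc.le
  rw [← hsc, Finset.mul_sum]
  calc ∑ j ∈ range M, s * Real.exp (-(s ^ 2 * ((j : ℝ) + 1) ^ 2))
      ≤ ∑ j ∈ range M, (2 * (1 / (1 + s * j)) - 2 * (1 / (1 + s * ((j + 1 : ℕ) : ℝ)))) := by
        apply Finset.sum_le_sum
        intro j _
        have := tele s hspos j
        push_cast
        exact this
    _ = 2 * (1 / (1 + s * (0 : ℕ))) - 2 * (1 / (1 + s * (M : ℕ))) :=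
        Finset.sum_range_sub' (fun j : ℕ => 2 * (1 / (1 + s * (j : ℝ)))) M
    _ ≤ 2 := by
        have : 0 ≤ 2 * (1 / (1 + s * (M : ℝ))) := by positivity
        push_cast
        simp only [mul_zero, add_zero, div_one, mul_one]
        linarith

theorem summable_exp (c : ℝ) (hc : 0 < c) :
    Summable (fun j : ℕ => Real.exp (-(c * ((j : ℝ) + 1) ^ 2))) := by
  have hspos : 0 < Real.sqrt c := Real.sqrt_pos.mpr hc
  apply summable_of_sum_range_le (c := 2 / Real.sqrt c)
  · intro n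
    positivity
  · intro M
    rw [le_div_iff₀ hspos, mul_comm]
    exact sum_exp_le c hc M

theorem tsum_exp_le (c : ℝ) (hc : 0 < c) :
    Real.sqrt c * ∑' j : ℕ, Real.exp (-(c * ((j : ℝ) + 1) ^ 2)) ≤ 2 := by
  have hspos : 0 < Real.sqrt c := Real.sqrt_pos.mpr hc
  have h : ∑' j : ℕ, Real.exp (-(c * ((j : ℝ) + 1) ^ 2)) ≤ 2 / Real.sqrt c := by
    apply (summable_exp c hc).tsum_le_of_sum_range_le
    intro M
    rw [le_div_iff₀ hspos, mul_comm]
    exact sum_exp_le c hc M
  rw [le_div_iff₀ hspos, mul_comm] at h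
  exact h

theorem summable_g (w : ℂ) (hw : w.re = 1) (c : ℝ) (hc : 0 < c) : Summable (g w c) := by
  apply Summable.of_norm
  simp only [norm_g w hw]
  exact summable_exp c hc

/-- The constant `√π / (2 √w)`. -/
noncomputable def kap (w : ℂ) : ℂ := (Real.sqrt Real.pi : ℂ) / (2 * w ^ (1 / 2 : ℂ))

theorem tendsto_err : Tendsto (fun t : ℝ => 2 / (1 - Real.exp (-Real.pi * t)) *
    Real.exp (-Real.pi * t)) atTop (𝓝 0) := by
  have h1 : Tendsto (fun t : ℝ => Real.exp (-Real.pi * t)) atTop (𝓝 0) := by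
    apply Real.tendsto_exp_atBot.comp
    exact tendsto_id.const_mul_atTop_of_neg (by linarith [Real.pi_pos])
  have h2 : Tendsto (fun t : ℝ => 2 / (1 - Real.exp (-Real.pi * t))) atTop (𝓝 (2 / (1 - 0))) :=
    tendsto_const_nhds.div (tendsto_const_nhds.sub h1) (by norm_num)
  have h3 := h2.mul h1
  simpa using h3

/-- Asymptotics of the full Gaussian sum. -/
theorem tendsto_full (w : ℂ) (hw : w.re = 1) :
    Tendsto (fun c : ℝ => (Real.sqrt c : ℂ) * ∑' j, g w c j) (𝓝[>] 0) (𝓝 (kap w)) := by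
  have hw0 : w ≠ 0 := by
    intro h
    rw [h] at hw
    simp at hw
  have hroot : w ^ (1 / 2 : ℂ) ≠ 0 := by
    intro h
    rw [Complex.cpow_eq_zero_iff] at h
    exact hw0 h.1
  -- exact formula
  have hformula : ∀ c : ℝ, 0 < c → (Real.sqrt c : ℂ) * ∑' j, g w c j =
      ((Real.sqrt Real.pi : ℂ) / w ^ (1 / 2 : ℂ) *
        jacobiTheta (I / (((c / Real.pi : ℝ) : ℂ) * w)) - (Real.sqrt c : ℂ)) / 2 := by
    intro c hc
    have hcpi : 0 < c / Real.pi := div_pos hc Real.pi_pos
    set a : ℂ := ((c / Real.pi : ℝ) : ℂ) * w with ha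
    have hare : 0 < a.re := by
      rw [ha, Complex.re_ofReal_mul, hw, mul_one]
      exact hcpi
    have him : 0 < (I * a).im := by
      simpa using hare
    have h1 := (hasSum_nat_jacobiTheta him).tsum_eq
    have h2 : ∑' j, g w c j = (jacobiTheta (I * a) - 1) / 2 := by
      rw [← h1]
      apply tsum_congr
      intro j
      unfold g
      congr 1
      rw [ha]
      have hpi : (Real.pi : ℂ) ≠ 0 := by exact_mod_cast Real.pi_ne_zero
      push_cast
      field_simp
      rw [Complex.I_sq]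
      ring
    have h3 : jacobiTheta (I * a) = 1 / a ^ (1 / 2 : ℂ) * jacobiTheta (I / a) := by
      have h4 := Complex.tsum_exp_neg_mul_int_sq hare
      unfold jacobiTheta
      have ha0 : a ≠ 0 := by
        intro h
        rw [h] at hare
        simp at hare
      have e1 : ∀ n : ℤ, cexp (Real.pi * I * (n : ℂ) ^ 2 * (I * a)) =
          cexp (-Real.pi * a * (n : ℂ) ^ 2) := by
        intro n
        congr 1
        linear_combination (Real.pi : ℂ) * (n : ℂ) ^ 2 * a * Complex.I_sq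
      have e2 : ∀ n : ℤ, cexp (Real.pi * I * (n : ℂ) ^ 2 * (I / a)) =
          cexp (-Real.pi / a * (n : ℂ) ^ 2) := by
        intro n
        congr 1
        linear_combination (Real.pi : ℂ) * (n : ℂ) ^ 2 / a * Complex.I_sq
      simp only [e1, e2]
      exact h4
    have h5 : a ^ (1 / 2 : ℂ) = (Real.sqrt (c / Real.pi) : ℂ) * w ^ (1 / 2 : ℂ) := by
      have ha0 : a ≠ 0 := by
        intro h
        rw [h] at hare
        simp at hare
      rw [Complex.cpow_def_of_ne_zero ha0, ha, Complex.log_ofReal_mul hcpi hw0, add_mul,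
        Complex.exp_add, ← Complex.cpow_def_of_ne_zero hw0]
      congr 1
      rw [Real.sqrt_eq_rpow, Complex.ofReal_cpow hcpi.le, Complex.cpow_def_of_ne_zero,
        Complex.ofReal_log hcpi.le]
      · push_cast
        rfl
      · exact_mod_cast hcpi.ne'
    rw [h2, h3, h5]
    have h6 : Real.sqrt (c / Real.pi) = Real.sqrt c / Real.sqrt Real.pi :=
      Real.sqrt_div hc.le _
    have hsc : (Real.sqrt c : ℂ) ≠ 0 := by
      exact_mod_cast (Real.sqrt_pos.mpr hc).ne'
    have hsp : (Real.sqrt Real.pi : ℂ) ≠ 0 := by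
      exact_mod_cast (Real.sqrt_pos.mpr Real.pi_pos).ne'
    rw [h6]
    push_cast
    field_simp
  -- the theta factor tends to one
  have htheta : Tendsto (fun c : ℝ => jacobiTheta (I / (((c / Real.pi : ℝ) : ℂ) * w)))
      (𝓝[>] 0) (𝓝 1) := by
    have him : ∀ c : ℝ, 0 < c → (I / (((c / Real.pi : ℝ) : ℂ) * w)).im =
        c⁻¹ * (Real.pi * (w⁻¹).re) := by
      intro c hc
      have hcc : (c : ℂ) ≠ 0 := by exact_mod_cast hc.ne'
      have hpi : (Real.pi : ℂ) ≠ 0 := by exact_mod_cast Real.pi_ne_zero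
      have e : I / (((c / Real.pi : ℝ) : ℂ) * w) = ((c⁻¹ * Real.pi : ℝ) : ℂ) * (I * w⁻¹) := by
        push_cast
        field_simp
      rw [e, Complex.im_ofReal_mul, Complex.I_mul_im]
      ring
    have hwinv : 0 < (w⁻¹).re := by
      rw [Complex.inv_re, hw]
      have := Complex.normSq_pos.mpr hw0
      positivity
    have hlim : Tendsto (fun c : ℝ => c⁻¹ * (Real.pi * (w⁻¹).re)) (𝓝[>] 0) atTop :=
      tendsto_inv_nhdsGT_zero.atTop_mul_const (mul_pos Real.pi_pos hwinv)
    rw [tendsto_iff_norm_sub_tendsto_zero]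
    refine squeeze_zero' (Eventually.of_forall (fun _ => norm_nonneg _)) ?_
      (tendsto_err.comp hlim)
    filter_upwards [self_mem_nhdsWithin] with c hc
    have hc' : (0 : ℝ) < c := hc
    have h1 := him c hc'
    have hpos : 0 < (I / (((c / Real.pi : ℝ) : ℂ) * w)).im := by
      rw [h1]
      have := mul_pos Real.pi_pos hwinv
      positivity
    have h2 := norm_jacobiTheta_sub_one_le hpos
    rw [h1] at h2
    exact h2
  have hsq : Tendsto (fun c : ℝ => (Real.sqrt c : ℂ)) (𝓝[>] 0) (𝓝 0) := by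
    have h1 : Tendsto (fun c : ℝ => Real.sqrt c) (𝓝[>] 0) (𝓝 (Real.sqrt 0)) :=
      (Real.continuous_sqrt.tendsto 0).mono_left nhdsWithin_le_nhds
    rw [Real.sqrt_zero] at h1
    have h2 := (Complex.continuous_ofReal.tendsto 0).comp h1
    rw [Complex.ofReal_zero] at h2
    exact h2
  have hlim : Tendsto (fun c : ℝ => ((Real.sqrt Real.pi : ℂ) / w ^ (1 / 2 : ℂ) *
        jacobiTheta (I / (((c / Real.pi : ℝ) : ℂ) * w)) - (Real.sqrt c : ℂ)) / 2) (𝓝[>] 0)
      (𝓝 (((Real.sqrt Real.pi : ℂ) / w ^ (1 / 2 : ℂ) * 1 - 0) / 2)) :=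
    ((htheta.const_mul _).sub hsq).div_const 2
  have he : ((Real.sqrt Real.pi : ℂ) / w ^ (1 / 2 : ℂ) * 1 - 0) / 2 = kap w := by
    unfold kap
    field_simp
    ring
  rw [he] at hlim
  apply hlim.congr'
  filter_upwards [self_mem_nhdsWithin] with c hc
  exact (hformula c hc).symm

theorem norm_exp_sub_le (w : ℂ) (hw : w.re = 1) (A B : ℝ) (hAB : A ≤ B) :
    ‖cexp (-(w * (B : ℂ))) - cexp (-(w * (A : ℂ)))‖ ≤
      ‖w‖ * (Real.exp (-A) - Real.exp (-B)) := by
  set f : ℝ → ℂ := fun x => cexp (-(w * (x : ℂ))) - cexp (-(w * (A : ℂ))) with hf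
  have hder : ∀ x : ℝ, HasDerivAt f (-w * cexp (-(w * (x : ℂ)))) x := by
    intro x
    have h1 : HasDerivAt (fun y : ℂ => -(w * y)) (-w) (x : ℂ) := by
      have h0 := ((hasDerivAt_id (x : ℂ)).const_mul (-w))
      have e : (fun y : ℂ => -(w * y)) = fun y : ℂ => -w * id y := by
        funext y
        simp
      rw [e]
      simpa using h0
    have h2 := h1.cexp.comp_ofReal
    have h3 := h2.sub_const (cexp (-(w * (A : ℂ))))
    have h4 : cexp (-(w * (x : ℂ))) * -w = -w * cexp (-(w * (x : ℂ))) := by ring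
    rw [h4] at h3
    exact h3
  have hBder : ∀ x : ℝ, HasDerivAt (fun x : ℝ => ‖w‖ * (Real.exp (-A) - Real.exp (-x)))
      (‖w‖ * Real.exp (-x)) x := by
    intro x
    have h1 : HasDerivAt (fun x : ℝ => Real.exp (-x)) (-Real.exp (-x)) x := by
      simpa using (hasDerivAt_neg x).exp
    have h2 := (h1.const_sub (Real.exp (-A))).const_mul ‖w‖
    simpa using h2
  have key := image_norm_le_of_norm_deriv_right_le_deriv_boundary (a := A) (b := B) (f := f)
    (f' := fun x => -w * cexp (-(w * (x : ℂ))))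
    (fun x _ => (hder x).continuousAt.continuousWithinAt)
    (fun x _ => (hder x).hasDerivWithinAt)
    (B := fun x : ℝ => ‖w‖ * (Real.exp (-A) - Real.exp (-x)))
    (B' := fun x => ‖w‖ * Real.exp (-x))
    (by simp [hf]) hBder (by
      intro x _
      rw [norm_mul, norm_neg, Complex.norm_exp, Complex.neg_re, Complex.re_mul_ofReal, hw,
        one_mul])
  exact key (Set.right_mem_Icc.mpr hAB)

/-- The sums over residue classes modulo `N` have the same asymptotics. -/
theorem tendsto_class (w : ℂ) (hw : w.re = 1) (N l : ℕ) (hl : l < N) :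
    Tendsto (fun c : ℝ => (Real.sqrt c : ℂ) * ∑' k, g w c (l + N * k)) (𝓝[>] 0)
      (𝓝 (kap w / N)) := by
  have hN : 0 < N := by omega
  have hNR : (0 : ℝ) < N := by exact_mod_cast hN
  have hNC : (N : ℂ) ≠ 0 := by exact_mod_cast hN.ne'
  -- the class of `N - 1`
  have hlast : Tendsto (fun c : ℝ => (Real.sqrt c : ℂ) * ∑' k, g w c ((N - 1) + N * k)) (𝓝[>] 0)
      (𝓝 (kap w / N)) := by
    have h1 : Tendsto (fun c : ℝ => c * (N : ℝ) ^ 2) (𝓝[>] 0) (𝓝[>] 0) := by
      rw [tendsto_nhdsWithin_iff]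
      constructor
      · have h2 : Tendsto (fun c : ℝ => c * (N : ℝ) ^ 2) (𝓝 0) (𝓝 (0 * (N : ℝ) ^ 2)) :=
          tendsto_id.mul_const _
        rw [zero_mul] at h2
        exact h2.mono_left nhdsWithin_le_nhds
      · filter_upwards [self_mem_nhdsWithin] with c hc
        have hc' : (0 : ℝ) < c := hc
        show (0 : ℝ) < c * (N : ℝ) ^ 2
        positivity
    have h2 := ((tendsto_full w hw).comp h1).div_const (N : ℂ)
    apply h2.congr'
    filter_upwards [self_mem_nhdsWithin] with c hc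
    have hc' : (0 : ℝ) < c := hc
    simp only [Function.comp]
    have e1 : Real.sqrt (c * (N : ℝ) ^ 2) = Real.sqrt c * N := by
      rw [Real.sqrt_mul hc'.le, Real.sqrt_sq hNR.le]
    have e2 : ∀ k : ℕ, g w (c * (N : ℝ) ^ 2) k = g w c ((N - 1) + N * k) := by
      intro k
      unfold g
      congr 4
      push_cast [Nat.cast_sub (show 1 ≤ N by omega)]
      ring
    rw [e1, tsum_congr e2]
    push_cast
    field_simp
  -- comparison
  have hcomp : ∀ c : ℝ, 0 < c →
      ‖∑' k, g w c (l + N * k) - ∑' k, g w c ((N - 1) + N * k)‖ ≤ ‖w‖ := by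
    intro c hc
    have hs := summable_g w hw c hc
    have hinj1 : Function.Injective (fun k : ℕ => l + N * k) := by
      intro a b hab
      have h1 : N * a = N * b := by simpa using hab
      exact Nat.eq_of_mul_eq_mul_left hN h1
    have hinj2 : Function.Injective (fun k : ℕ => (N - 1) + N * k) := by
      intro a b hab
      have h1 : N * a = N * b := by simpa using hab
      exact Nat.eq_of_mul_eq_mul_left hN h1
    have hs1 : Summable (fun k : ℕ => g w c (l + N * k)) := hs.comp_injective hinj1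
    have hs2 : Summable (fun k : ℕ => g w c ((N - 1) + N * k)) := hs.comp_injective hinj2
    rw [← hs1.tsum_sub hs2]
    have hterm : ∀ k : ℕ, ‖g w c (l + N * k) - g w c ((N - 1) + N * k)‖ ≤
        ‖w‖ * (Real.exp (-(c * ((N : ℝ) * k) ^ 2)) -
          Real.exp (-(c * ((N : ℝ) * ((k + 1 : ℕ) : ℝ)) ^ 2))) := by
      intro k
      have h1 := norm_exp_sub_le w hw (c * (((l + N * k : ℕ) : ℝ) + 1) ^ 2)
        (c * ((((N - 1) + N * k : ℕ) : ℝ) + 1) ^ 2) (by
          apply mul_le_mul_of_nonneg_left _ hc.le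
          apply pow_le_pow_left₀ (by positivity)
          have : l + N * k ≤ (N - 1) + N * k := by omega
          have : ((l + N * k : ℕ) : ℝ) ≤ (((N - 1) + N * k : ℕ) : ℝ) := by exact_mod_cast this
          linarith)
      have h2 : ‖g w c (l + N * k) - g w c ((N - 1) + N * k)‖ =
          ‖cexp (-(w * ((c * ((((N - 1) + N * k : ℕ) : ℝ) + 1) ^ 2 : ℝ) : ℂ))) -
            cexp (-(w * ((c * (((l + N * k : ℕ) : ℝ) + 1) ^ 2 : ℝ) : ℂ)))‖ := by
        rw [norm_sub_rev]
        rfl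
      rw [h2]
      refine h1.trans ?_
      apply mul_le_mul_of_nonneg_left _ (norm_nonneg _)
      have h3 : Real.exp (-(c * (((l + N * k : ℕ) : ℝ) + 1) ^ 2)) ≤
          Real.exp (-(c * ((N : ℝ) * k) ^ 2)) := by
        apply Real.exp_le_exp.mpr
        apply neg_le_neg
        apply mul_le_mul_of_nonneg_left _ hc.le
        apply pow_le_pow_left₀ (by positivity)
        push_cast
        have : (0 : ℝ) ≤ l := Nat.cast_nonneg l
        linarith
      have h4 : ((((N - 1) + N * k : ℕ) : ℝ) + 1) = (N : ℝ) * ((k + 1 : ℕ) : ℝ) := by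
        push_cast [Nat.cast_sub (show 1 ≤ N by omega)]
        ring
      rw [h4]
      linarith
    have hnn : ∀ k : ℕ, 0 ≤ ‖w‖ * (Real.exp (-(c * ((N : ℝ) * k) ^ 2)) -
          Real.exp (-(c * ((N : ℝ) * ((k + 1 : ℕ) : ℝ)) ^ 2))) := fun k =>
      (norm_nonneg _).trans (hterm k)
    have hpart : ∀ M : ℕ, ∑ k ∈ range M, ‖w‖ * (Real.exp (-(c * ((N : ℝ) * k) ^ 2)) -
          Real.exp (-(c * ((N : ℝ) * ((k + 1 : ℕ) : ℝ)) ^ 2))) ≤ ‖w‖ := by
      intro M
      rw [← Finset.mul_sum, Finset.sum_range_sub'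
        (fun k : ℕ => Real.exp (-(c * ((N : ℝ) * (k : ℝ)) ^ 2))) M]
      have h5 : Real.exp (-(c * ((N : ℝ) * ((0 : ℕ) : ℝ)) ^ 2)) = 1 := by simp
      rw [h5]
      have h6 : 0 < Real.exp (-(c * ((N : ℝ) * (M : ℝ)) ^ 2)) := Real.exp_pos _
      calc ‖w‖ * (1 - Real.exp (-(c * ((N : ℝ) * (M : ℝ)) ^ 2))) ≤ ‖w‖ * 1 :=
            mul_le_mul_of_nonneg_left (by linarith) (norm_nonneg _)
        _ = ‖w‖ := mul_one _
    have hsum := summable_of_sum_range_le hnn hpart
    have hsn : Summable (fun k : ℕ => ‖g w c (l + N * k) - g w c ((N - 1) + N * k)‖) :=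
      Summable.of_nonneg_of_le (fun _ => norm_nonneg _) hterm hsum
    refine (norm_tsum_le_tsum_norm hsn).trans ?_
    refine (hsn.tsum_le_tsum hterm hsum).trans ?_
    exact hsum.tsum_le_of_sum_range_le hpart
  have hsq : Tendsto (fun c : ℝ => Real.sqrt c * ‖w‖) (𝓝[>] 0) (𝓝 0) := by
    have h1 : Tendsto (fun c : ℝ => Real.sqrt c) (𝓝[>] 0) (𝓝 (Real.sqrt 0)) :=
      (Real.continuous_sqrt.tendsto 0).mono_left nhdsWithin_le_nhds
    rw [Real.sqrt_zero] at h1
    simpa using h1.mul_const ‖w‖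
  have hdiff : Tendsto (fun c : ℝ => (Real.sqrt c : ℂ) * ∑' k, g w c (l + N * k) -
      (Real.sqrt c : ℂ) * ∑' k, g w c ((N - 1) + N * k)) (𝓝[>] 0) (𝓝 0) := by
    rw [tendsto_zero_iff_norm_tendsto_zero]
    refine squeeze_zero' (Eventually.of_forall (fun _ => norm_nonneg _)) ?_ hsq
    filter_upwards [self_mem_nhdsWithin] with c hc
    rw [← mul_sub, norm_mul, Complex.norm_real, Real.norm_of_nonneg (Real.sqrt_nonneg _)]
    exact mul_le_mul_of_nonneg_left (hcomp c hc) (Real.sqrt_nonneg _)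
  have := hdiff.add hlast
  simpa using this

/-- Asymptotics of Gaussian sums with periodic coefficients. -/
theorem tendsto_periodic (w : ℂ) (hw : w.re = 1) (N : ℕ) (hN : 0 < N) (φ : ℕ → ℂ)
    (hφ : ∀ j k, φ (j + N * k) = φ j) (hb : ∀ j, ‖φ j‖ ≤ 1) :
    Tendsto (fun c : ℝ => (Real.sqrt c : ℂ) * ∑' j, φ j * g w c j) (𝓝[>] 0)
      (𝓝 ((∑ l ∈ range N, φ l) / N * kap w)) := by
  have : NeZero N := ⟨hN.ne'⟩
  have hlim : Tendsto (fun c : ℝ => ∑ l ∈ range N, φ l *
      ((Real.sqrt c : ℂ) * ∑' k, g w c (l + N * k))) (𝓝[>] 0)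
      (𝓝 (∑ l ∈ range N, φ l * (kap w / N))) := by
    apply tendsto_finsetSum
    intro l hl
    exact (tendsto_class w hw N l (Finset.mem_range.mp hl)).const_mul _
  have he : ∑ l ∈ range N, φ l * (kap w / N) = (∑ l ∈ range N, φ l) / N * kap w := by
    rw [← Finset.sum_mul]
    ring
  rw [he] at hlim
  apply hlim.congr'
  filter_upwards [self_mem_nhdsWithin] with c hc
  have hc' : (0 : ℝ) < c := hc
  have hs : Summable (fun j => φ j * g w c j) := by
    apply Summable.of_norm_bounded (summable_exp c hc')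
    intro j
    rw [norm_mul, norm_g w hw]
    calc ‖φ j‖ * Real.exp (-(c * ((j : ℝ) + 1) ^ 2)) ≤
          1 * Real.exp (-(c * ((j : ℝ) + 1) ^ 2)) :=
          mul_le_mul_of_nonneg_right (hb j) (Real.exp_pos _).le
      _ = _ := one_mul _
  rw [Nat.sumByResidueClasses hs N, Finset.mul_sum]
  have hconv : ∑ l ∈ range N, φ l * ((Real.sqrt c : ℂ) * ∑' k, g w c (l + N * k)) =
      ∑ j : ZMod N, φ j.val * ((Real.sqrt c : ℂ) * ∑' k, g w c (j.val + N * k)) := by
    refine (Finset.sum_bij (fun (j : ZMod N) _ => j.val) ?_ ?_ ?_ ?_).symm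
    · intro j _
      exact Finset.mem_range.mpr (ZMod.val_lt j)
    · intro a _ b _ hab
      exact ZMod.val_injective N hab
    · intro b hb'
      refine ⟨(b : ZMod N), Finset.mem_univ _, ?_⟩
      exact ZMod.val_natCast_of_lt (Finset.mem_range.mp hb')
    · intro j _
      rfl
  rw [hconv]
  apply Finset.sum_congr rfl
  intro j _
  have h1 : ∑' m, φ (j.val + N * m) * g w c (j.val + N * m) =
      φ j.val * ∑' m, g w c (j.val + N * m) := by
    rw [← tsum_mul_left]
    apply tsum_congr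
    intro m
    rw [hφ]
  rw [h1]
  ring

end Pool.Agent.R456.PP
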