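import Mathlib
import Pool.Agent.R456.PP.Theta

/-!
# Growth of the logarithm of the generating function at roots of unity
-/

namespace Pool.Agent.R456.PP

open Finset Filter Topology Complex

/-- `n^{-3/2}`, with value `0` at `n = 0`. -/
noncomputable def q (n : ℕ) : ℝ := 1 / ((n : ℝ) * Real.sqrt n)

theorem q_zero : q 0 = 0 := by simp [q]

theorem q_nonneg (n : ℕ) : 0 ≤ q n := by unfold q; positivity

theorem q_mul (d n : ℕ) : q (d * n) = q d * q n := by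
  unfold q
  push_cast
  rw [Real.sqrt_mul (Nat.cast_nonneg d)]
  rw [one_div_mul_one_div]
  congr 1
  ring

theorem q_eq (n : ℕ) : q n = ((n : ℝ) ^ (3 / 2 : ℝ))⁻¹ := by
  unfold q
  rcases Nat.eq_zero_or_pos n with rfl | hn
  · simp
  · have hnR : (0 : ℝ) < n := by exact_mod_cast hn
    rw [one_div]
    congr 1
    rw [Real.sqrt_eq_rpow]
    have : (3 / 2 : ℝ) = 1 + 1 / 2 := by norm_num
    rw [this, Real.rpow_add hnR, Real.rpow_one]

theorem summable_q : Summable q := by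
  have h : Summable (fun n : ℕ => ((n : ℝ) ^ (3 / 2 : ℝ))⁻¹) :=
    Real.summable_nat_rpow_inv.mpr (by norm_num)
  exact h.congr (fun n => (q_eq n).symm)

/-- The mean of `y ^ (l²)` over a period. -/
noncomputable def G (N : ℕ) (y : ℂ) : ℂ := (∑ l ∈ range N, y ^ ((l + 1) ^ 2)) / N

theorem norm_eq_one_of_pow (z0 : ℂ) (N : ℕ) (hN : 0 < N) (h : z0 ^ N = 1) : ‖z0‖ = 1 := by
  exact Complex.norm_eq_one_of_pow_eq_one h hN.ne'

theorem norm_G_le (N : ℕ) (y : ℂ) (hy : ‖y‖ = 1) : ‖G N y‖ ≤ 1 := by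
  unfold G
  rcases Nat.eq_zero_or_pos N with rfl | hN
  · simp
  rw [norm_div, Complex.norm_natCast, div_le_one (by exact_mod_cast hN)]
  refine (norm_sum_le _ _).trans ?_
  have : ∑ l ∈ range N, ‖y ^ ((l + 1) ^ 2)‖ = N := by
    simp [norm_pow, hy]
  rw [this]

/-- The constant `λ`. -/
noncomputable def lam (x z0 : ℂ) (N : ℕ) : ℂ := ∑' n : ℕ, (q n : ℂ) * (x ^ n * G N (z0 ^ n))

theorem summable_lam (x z0 : ℂ) (hx : ‖x‖ ≤ 1) (N : ℕ) (hz : ‖z0‖ = 1) :
    Summable (fun n : ℕ => (q n : ℂ) * (x ^ n * G N (z0 ^ n))) := by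
  apply Summable.of_norm_bounded summable_q
  intro n
  rw [norm_mul, Complex.norm_real, Real.norm_of_nonneg (q_nonneg n), norm_mul, norm_pow]
  have h1 : ‖x‖ ^ n ≤ 1 := pow_le_one₀ (norm_nonneg _) hx
  have h2 : ‖G N (z0 ^ n)‖ ≤ 1 := norm_G_le N _ (by rw [norm_pow, hz, one_pow])
  have h3 : ‖x‖ ^ n * ‖G N (z0 ^ n)‖ ≤ 1 := by
    calc ‖x‖ ^ n * ‖G N (z0 ^ n)‖ ≤ 1 * 1 :=
          mul_le_mul h1 h2 (norm_nonneg _) (by norm_num)
      _ = 1 := by norm_num
  calc q n * (‖x‖ ^ n * ‖G N (z0 ^ n)‖) ≤ q n * 1 := mul_le_mul_of_nonneg_left h3 (q_nonneg n)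
    _ = q n := mul_one _

/-- The growth of `L` when approaching a root of unity. -/
theorem tendsto_L (x z0 w : ℂ) (hx : ‖x‖ ≤ 1) (N : ℕ) (hN : 0 < N) (hz : z0 ^ N = 1)
    (hw : w.re = 1) :
    Tendsto (fun s : ℝ => (Real.sqrt s : ℂ) * L x (z0 * cexp (-(w * (s : ℂ))))) (𝓝[>] 0)
      (𝓝 (lam x z0 N * kap w)) := by
  have hz1 : ‖z0‖ = 1 := norm_eq_one_of_pow z0 N hN hz
  -- the coefficients
  set φ : ℕ → ℕ → ℂ := fun m j => (z0 ^ (m + 1)) ^ ((j + 1) ^ 2) with hφ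
  have hper : ∀ m j k, φ m (j + N * k) = φ m j := by
    intro m j k
    simp only [hφ]
    have e : (j + N * k + 1) ^ 2 = (j + 1) ^ 2 + N * (2 * k * (j + 1) + N * k ^ 2) := by ring
    rw [e, pow_add, ← pow_mul z0 (m + 1) (N * _), Nat.mul_left_comm, pow_mul z0 N, hz, one_pow,
      mul_one]
  have hb : ∀ m j, ‖φ m j‖ ≤ 1 := by
    intro m j
    simp only [hφ]
    rw [norm_pow, norm_pow, hz1, one_pow, one_pow]
  have hS := fun m : ℕ => tendsto_periodic w hw N hN (φ m) (hper m) (hb m)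
  -- rewriting the terms
  have hterm : ∀ s : ℝ, 0 < s → ∀ m j : ℕ,
      ((z0 * cexp (-(w * (s : ℂ)))) ^ (m + 1)) ^ ((j + 1) ^ 2) =
        φ m j * g w (s * ((m : ℝ) + 1)) j := by
    intro s _ m j
    simp only [hφ]
    unfold g
    rw [mul_pow, mul_pow, ← Complex.exp_nat_mul, ← Complex.exp_nat_mul]
    congr 2
    push_cast
    ring
  -- the terms
  set T : ℝ → ℕ → ℂ := fun s m => x ^ (m + 1) / ((m : ℂ) + 1) *
    ((Real.sqrt s : ℂ) * ∑' j : ℕ, φ m j * g w (s * ((m : ℝ) + 1)) j) with hT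
  have hsum : ∀ s : ℝ, 0 < s → (Real.sqrt s : ℂ) * L x (z0 * cexp (-(w * (s : ℂ)))) =
      ∑' m, T s m := by
    intro s hs
    unfold L
    rw [← tsum_mul_left]
    apply tsum_congr
    intro m
    simp only [hT]
    rw [tsum_congr (hterm s hs m)]
    ring
  -- scaled square roots
  have hscale : ∀ s : ℝ, 0 < s → ∀ m : ℕ, Real.sqrt s =
      (1 / Real.sqrt ((m : ℝ) + 1)) * Real.sqrt (s * ((m : ℝ) + 1)) := by
    intro s hs m
    have hm : (0 : ℝ) < (m : ℝ) + 1 := by positivity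
    rw [Real.sqrt_mul hs.le]
    have := (Real.sqrt_pos.mpr hm).ne'
    field_simp
  have hqm : ∀ m : ℕ, q (m + 1) = 1 / ((m : ℝ) + 1) * (1 / Real.sqrt ((m : ℝ) + 1)) := by
    intro m
    unfold q
    push_cast
    rw [one_div_mul_one_div]
  -- limit of the terms
  have hlimT : ∀ m : ℕ, Tendsto (fun s => T s m) (𝓝[>] 0)
      (𝓝 (((q (m + 1) : ℝ) : ℂ) * (x ^ (m + 1) * G N (z0 ^ (m + 1))) * kap w)) := by
    intro m
    have hm : (0 : ℝ) < (m : ℝ) + 1 := by positivity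
    have h1 : Tendsto (fun s : ℝ => s * ((m : ℝ) + 1)) (𝓝[>] 0) (𝓝[>] 0) := by
      rw [tendsto_nhdsWithin_iff]
      constructor
      · have h2 : Tendsto (fun s : ℝ => s * ((m : ℝ) + 1)) (𝓝 0) (𝓝 (0 * ((m : ℝ) + 1))) :=
          tendsto_id.mul_const _
        rw [zero_mul] at h2
        exact h2.mono_left nhdsWithin_le_nhds
      · filter_upwards [self_mem_nhdsWithin] with s hs
        have hs' : (0 : ℝ) < s := hs
        show (0 : ℝ) < s * ((m : ℝ) + 1)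
        positivity
    have h2 := ((hS m).comp h1).const_mul
      (x ^ (m + 1) / ((m : ℂ) + 1) * ((1 / Real.sqrt ((m : ℝ) + 1) : ℝ) : ℂ))
    have e1 : x ^ (m + 1) / ((m : ℂ) + 1) * ((1 / Real.sqrt ((m : ℝ) + 1) : ℝ) : ℂ) *
        ((∑ l ∈ range N, φ m l) / N * kap w) =
        ((q (m + 1) : ℝ) : ℂ) * (x ^ (m + 1) * G N (z0 ^ (m + 1))) * kap w := by
      rw [hqm]
      unfold G
      simp only [hφ]
      push_cast
      ring
    rw [e1] at h2
    apply h2.congr'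
    filter_upwards [self_mem_nhdsWithin] with s hs
    have hs' : (0 : ℝ) < s := hs
    simp only [hT, Function.comp]
    rw [hscale s hs' m]
    push_cast
    ring
  -- domination
  have hdom : ∀ᶠ s : ℝ in 𝓝[>] 0, ∀ m : ℕ, ‖T s m‖ ≤ 2 * q (m + 1) := by
    filter_upwards [self_mem_nhdsWithin] with s hs m
    have hs' : (0 : ℝ) < s := hs
    have hm : (0 : ℝ) < (m : ℝ) + 1 := by positivity
    have hc : 0 < s * ((m : ℝ) + 1) := by positivity
    simp only [hT]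
    have hnm : ‖((m : ℂ) + 1)‖ = (m : ℝ) + 1 := by
      have : ((m : ℂ) + 1) = ((m + 1 : ℕ) : ℂ) := by push_cast; ring
      rw [this, Complex.norm_natCast]
      push_cast
      ring
    have h1 : ‖∑' j : ℕ, φ m j * g w (s * ((m : ℝ) + 1)) j‖ ≤
        ∑' j : ℕ, Real.exp (-(s * ((m : ℝ) + 1) * ((j : ℝ) + 1) ^ 2)) := by
      apply tsum_of_norm_bounded (summable_exp _ hc).hasSum
      intro j
      rw [norm_mul, norm_g w hw]
      calc ‖φ m j‖ * Real.exp (-(s * ((m : ℝ) + 1) * ((j : ℝ) + 1) ^ 2)) ≤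
            1 * Real.exp (-(s * ((m : ℝ) + 1) * ((j : ℝ) + 1) ^ 2)) :=
            mul_le_mul_of_nonneg_right (hb m j) (Real.exp_pos _).le
        _ = _ := one_mul _
    have h2 := tsum_exp_le _ hc
    rw [norm_mul, norm_div, norm_pow, hnm, norm_mul, Complex.norm_real,
      Real.norm_of_nonneg (Real.sqrt_nonneg _)]
    have hx1 : ‖x‖ ^ (m + 1) ≤ 1 := pow_le_one₀ (norm_nonneg _) hx
    have h3 : Real.sqrt s * ‖∑' j : ℕ, φ m j * g w (s * ((m : ℝ) + 1)) j‖ ≤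
        (1 / Real.sqrt ((m : ℝ) + 1)) * 2 := by
      calc Real.sqrt s * ‖∑' j : ℕ, φ m j * g w (s * ((m : ℝ) + 1)) j‖
          ≤ Real.sqrt s * ∑' j : ℕ, Real.exp (-(s * ((m : ℝ) + 1) * ((j : ℝ) + 1) ^ 2)) :=
            mul_le_mul_of_nonneg_left h1 (Real.sqrt_nonneg _)
        _ = (1 / Real.sqrt ((m : ℝ) + 1)) * (Real.sqrt (s * ((m : ℝ) + 1)) *
              ∑' j : ℕ, Real.exp (-(s * ((m : ℝ) + 1) * ((j : ℝ) + 1) ^ 2))) := by
            conv_lhs => rw [hscale s hs' m]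
            ring
        _ ≤ (1 / Real.sqrt ((m : ℝ) + 1)) * 2 :=
            mul_le_mul_of_nonneg_left h2 (by positivity)
    calc ‖x‖ ^ (m + 1) / ((m : ℝ) + 1) *
          (Real.sqrt s * ‖∑' j : ℕ, φ m j * g w (s * ((m : ℝ) + 1)) j‖)
        ≤ (1 / ((m : ℝ) + 1)) * ((1 / Real.sqrt ((m : ℝ) + 1)) * 2) := by
          apply mul_le_mul _ h3 (by positivity) (by positivity)
          exact div_le_div_of_nonneg_right hx1 hm.le
      _ = 2 * q (m + 1) := by rw [hqm]; ring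
  have hsq : Summable (fun m : ℕ => 2 * q (m + 1)) :=
    ((summable_nat_add_iff 1).mpr summable_q).mul_left 2
  have hlim := tendsto_tsum_of_dominated_convergence hsq hlimT hdom
  have hfinal : ∑' m : ℕ, ((q (m + 1) : ℝ) : ℂ) * (x ^ (m + 1) * G N (z0 ^ (m + 1))) * kap w =
      lam x z0 N * kap w := by
    rw [tsum_mul_right]
    congr 1
    unfold lam
    rw [(summable_lam x z0 hx N hz1).tsum_eq_zero_add, q_zero]
    simp
  rw [hfinal] at hlim
  apply hlim.congr'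
  filter_upwards [self_mem_nhdsWithin] with s hs
  exact (hsum s hs).symm

end Pool.Agent.R456.PP
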