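import Mathlib
import Pool.Agent.R456.PP.Asym

/-!
# Bounds for quadratic Gauss sums
-/

namespace Pool.Agent.R456.PP

open Finset Filter Topology Complex

theorem sum_range_mul_of_periodic (f : ℕ → ℂ) (R : ℕ) (hf : ∀ l, f (l + R) = f l) (k : ℕ) :
    ∑ l ∈ range (R * k), f l = k * ∑ l ∈ range R, f l := by
  have hf' : ∀ (m l : ℕ), f (R * m + l) = f l := by
    intro m
    induction m with
    | zero => intro l; simp
    | succ m ih =>
      intro l
      have : R * (m + 1) + l = (R * m + l) + R := by ring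
      rw [this, hf, ih]
  induction k with
  | zero => simp
  | succ k ih =>
    rw [Nat.mul_succ, Finset.sum_range_add, ih]
    simp only [hf']
    push_cast
    ring

/-- Reduction of the period. -/
theorem G_eq (N R : ℕ) (hR : 0 < R) (hdvd : R ∣ N) (hN : 0 < N) (y : ℂ) (hy : y ^ R = 1) :
    G N y = G R y := by
  obtain ⟨k, rfl⟩ := hdvd
  have hk : 0 < k := Nat.pos_of_mul_pos_left hN
  unfold G
  rw [sum_range_mul_of_periodic (fun l => y ^ ((l + 1) ^ 2)) R _ k]
  · have h1 : (R : ℂ) ≠ 0 := by exact_mod_cast hR.ne'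
    have h2 : (k : ℂ) ≠ 0 := by exact_mod_cast hk.ne'
    push_cast
    field_simp
  · intro l
    have e : (l + R + 1) ^ 2 = (l + 1) ^ 2 + R * (2 * (l + 1) + R) := by ring
    rw [e, pow_add, pow_mul, hy, one_pow, mul_one]

/-- The square of the absolute value of a quadratic Gauss sum. -/
theorem gauss_sq (R : ℕ) [NeZero R] (y : ℂ) (hy : IsPrimitiveRoot y R) :
    ‖∑ l ∈ range R, y ^ ((l + 1) ^ 2)‖ ^ 2 ≤
      (R : ℝ) * ((Finset.univ.filter (fun h : ZMod R => 2 * h = 0)).card : ℝ) := by
  classical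
  set ψ : AddChar (ZMod R) ℂ := AddChar.zmodChar R hy.pow_eq_one with hψ
  have hprim : ψ.IsPrimitive := AddChar.zmodChar_primitive_of_primitive_root R hy
  set S : ℂ := ∑ a : ZMod R, ψ (a * a) with hS
  have hconv : ∑ l ∈ range R, y ^ ((l + 1) ^ 2) = S := by
    rw [hS]
    refine Finset.sum_bij (fun (l : ℕ) _ => ((l + 1 : ℕ) : ZMod R)) ?_ ?_ ?_ ?_
    · intro l _
      exact Finset.mem_univ _
    · intro a ha b hb hab
      have ha' := Finset.mem_range.mp ha
      have hb' := Finset.mem_range.mp hb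
      rw [ZMod.natCast_eq_natCast_iff] at hab
      have h2 : a ≡ b [MOD R] := Nat.ModEq.add_right_cancel' 1 hab
      exact Nat.ModEq.eq_of_lt_of_lt h2 ha' hb'
    · intro b _
      refine ⟨(b - 1).val, Finset.mem_range.mpr (ZMod.val_lt _), ?_⟩
      push_cast
      rw [ZMod.natCast_zmod_val]
      ring
    · intro l _
      rw [hψ]
      have e : ((l + 1 : ℕ) : ZMod R) * ((l + 1 : ℕ) : ZMod R) = (((l + 1) ^ 2 : ℕ) : ZMod R) := by
        push_cast
        ring
      rw [e, AddChar.zmodChar_apply']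
  rw [hconv]
  have hconj : (starRingEnd ℂ) S = ∑ b : ZMod R, ψ (-(b * b)) := by
    rw [hS, map_sum]
    apply Finset.sum_congr rfl
    intro b _
    rw [AddChar.map_neg_eq_conj]
  have hprod : S * (starRingEnd ℂ) S =
      ∑ h : ZMod R, ψ (h * h) * ∑ b : ZMod R, ψ (b * (2 * h)) := by
    rw [hconj, hS, Finset.sum_mul_sum]
    have h1 : ∀ b : ZMod R, ∑ a : ZMod R, ψ (a * a) * ψ (-(b * b)) =
        ∑ h : ZMod R, ψ (h * h) * ψ (b * (2 * h)) := by
      intro b
      rw [← Equiv.sum_comp (Equiv.addRight b) (fun a => ψ (a * a) * ψ (-(b * b)))]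
      apply Finset.sum_congr rfl
      intro h _
      simp only [Equiv.coe_addRight]
      rw [← AddChar.map_add_eq_mul, ← AddChar.map_add_eq_mul]
      congr 1
      ring
    rw [Finset.sum_comm]
    simp only [h1]
    rw [Finset.sum_comm]
    apply Finset.sum_congr rfl
    intro h _
    rw [Finset.mul_sum]
  have hnorm : ((‖S‖ ^ 2 : ℝ) : ℂ) = S * (starRingEnd ℂ) S := by
    rw [Complex.mul_conj, Complex.normSq_eq_norm_sq]
  have hval : S * (starRingEnd ℂ) S =
      ∑ h ∈ Finset.univ.filter (fun h : ZMod R => 2 * h = 0), ψ (h * h) * (R : ℂ) := by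
    rw [hprod, Finset.sum_filter]
    apply Finset.sum_congr rfl
    intro h _
    rw [AddChar.sum_mulShift (2 * h) hprim]
    split_ifs with h0
    · rw [ZMod.card]
    · simp
  have hle : ‖S * (starRingEnd ℂ) S‖ ≤
      (R : ℝ) * ((Finset.univ.filter (fun h : ZMod R => 2 * h = 0)).card : ℝ) := by
    rw [hval]
    refine (norm_sum_le _ _).trans ?_
    have : ∀ h ∈ Finset.univ.filter (fun h : ZMod R => 2 * h = 0),
        ‖ψ (h * h) * (R : ℂ)‖ ≤ (R : ℝ) := by
      intro h _
      rw [norm_mul, AddChar.norm_apply, Complex.norm_natCast, one_mul]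
    refine (Finset.sum_le_sum this).trans ?_
    rw [Finset.sum_const, nsmul_eq_mul]
    exact le_of_eq (mul_comm _ _)
  rw [← hnorm, Complex.norm_real, Real.norm_of_nonneg (by positivity)] at hle
  exact hle

theorem card_two_torsion (R : ℕ) [NeZero R] :
    (Finset.univ.filter (fun h : ZMod R => 2 * h = 0)).card ≤ 2 := by
  have hsub : Finset.univ.filter (fun h : ZMod R => 2 * h = 0) ⊆
      {(0 : ZMod R), ((R / 2 : ℕ) : ZMod R)} := by
    intro h hh
    rw [Finset.mem_filter] at hh
    have h1 : ((2 * h.val : ℕ) : ZMod R) = 0 := by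
      push_cast
      rw [ZMod.natCast_zmod_val]
      exact hh.2
    rw [ZMod.natCast_eq_zero_iff] at h1
    have hlt := ZMod.val_lt h
    obtain ⟨k, hk⟩ := h1
    have hk2 : k < 2 := by
      by_contra hcon
      push Not at hcon
      have : R * 2 ≤ R * k := Nat.mul_le_mul_left R hcon
      omega
    simp only [Finset.mem_insert, Finset.mem_singleton]
    interval_cases k
    · left
      have : h.val = 0 := by omega
      exact (ZMod.val_eq_zero h).mp this
    · right
      have : h.val = R / 2 := by omega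
      rw [← this, ZMod.natCast_zmod_val]
  exact (Finset.card_le_card hsub).trans Finset.card_le_two

theorem card_two_torsion_odd (R : ℕ) [NeZero R] (hR : Odd R) :
    (Finset.univ.filter (fun h : ZMod R => 2 * h = 0)).card ≤ 1 := by
  have hsub : Finset.univ.filter (fun h : ZMod R => 2 * h = 0) ⊆ {(0 : ZMod R)} := by
    intro h hh
    rw [Finset.mem_filter] at hh
    have h1 : ((2 * h.val : ℕ) : ZMod R) = 0 := by
      push_cast
      rw [ZMod.natCast_zmod_val]
      exact hh.2
    rw [ZMod.natCast_eq_zero_iff] at h1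
    have h2 : R ∣ h.val := (Nat.Coprime.dvd_mul_left (Nat.coprime_two_right.mpr hR)).mp h1
    have hlt := ZMod.val_lt h
    have h3 : h.val = 0 := Nat.eq_zero_of_dvd_of_lt h2 hlt
    rw [Finset.mem_singleton]
    exact (ZMod.val_eq_zero h).mp h3
  exact (Finset.card_le_card hsub).trans (by simp)

theorem G_le_half (R : ℕ) (hR : 5 ≤ R) (y : ℂ) (hy : IsPrimitiveRoot y R) :
    ‖G R y‖ ≤ 1 / 2 := by
  have : NeZero R := ⟨by omega⟩
  have hR0 : (0 : ℝ) < R := by
    have : 0 < R := by omega
    exact_mod_cast this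
  by_cases h6 : R = 6
  · subst h6
    have hy6 : y ^ 6 = 1 := hy.pow_eq_one
    have hy3 : y ^ 3 = -1 := by
      have h1 : (y ^ 3 - 1) * (y ^ 3 + 1) = 0 := by linear_combination hy6
      rcases mul_eq_zero.mp h1 with h | h
      · exfalso
        have h2 : y ^ 3 = 1 := by linear_combination h
        have := (hy.pow_eq_one_iff_dvd 3).mp h2
        omega
      · linear_combination h
    have hsum : ∑ l ∈ range 6, y ^ ((l + 1) ^ 2) = 0 := by
      simp only [Finset.sum_range_succ, Finset.sum_range_zero]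
      norm_num
      have e4 : y ^ 4 = -y := by
        have : y ^ 4 = y ^ 3 * y := by ring
        rw [this, hy3]
        ring
      have e9 : y ^ 9 = -1 := by
        have : y ^ 9 = y ^ 6 * y ^ 3 := by ring
        rw [this, hy6, hy3]
        ring
      have e16 : y ^ 16 = -y := by
        have : y ^ 16 = (y ^ 6) ^ 2 * y ^ 4 := by ring
        rw [this, hy6, e4]
        ring
      have e25 : y ^ 25 = y := by
        have : y ^ 25 = (y ^ 6) ^ 4 * y := by ring
        rw [this, hy6]
        ring
      have e36 : y ^ 36 = 1 := by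
        have : y ^ 36 = (y ^ 6) ^ 6 := by ring
        rw [this, hy6]
        ring
      rw [e4, e9, e16, e25, e36]
      ring
    unfold G
    rw [hsum]
    simp
  · have h1 := gauss_sq R y hy
    have h2 : ‖∑ l ∈ range R, y ^ ((l + 1) ^ 2)‖ ^ 2 ≤ (R : ℝ) ^ 2 / 4 := by
      by_cases hodd : Odd R
      · have h3 := card_two_torsion_odd R hodd
        have h3' : ((Finset.univ.filter (fun h : ZMod R => 2 * h = 0)).card : ℝ) ≤ 1 := by
          exact_mod_cast h3
        have h5 : (5 : ℝ) ≤ R := by exact_mod_cast hR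
        nlinarith
      · have h3 := card_two_torsion R
        have h3' : ((Finset.univ.filter (fun h : ZMod R => 2 * h = 0)).card : ℝ) ≤ 2 := by
          exact_mod_cast h3
        have h8 : 8 ≤ R := by
          rw [Nat.not_odd_iff_even] at hodd
          obtain ⟨k, hk⟩ := hodd
          omega
        have h5 : (8 : ℝ) ≤ R := by exact_mod_cast h8
        nlinarith
    unfold G
    rw [norm_div, Complex.norm_natCast, div_le_div_iff₀ hR0 (by norm_num)]
    have h3 : ‖∑ l ∈ range R, y ^ ((l + 1) ^ 2)‖ ≤ (R : ℝ) / 2 := by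
      apply abs_le_of_sq_le_sq' _ (by positivity) |>.2
      have : ((R : ℝ) / 2) ^ 2 = (R : ℝ) ^ 2 / 4 := by ring
      rw [this]
      exact h2
    linarith

theorem G_one : G 1 1 = 1 := by
  unfold G
  simp

theorem G_two : G 2 (-1) = 0 := by
  unfold G
  simp only [Finset.sum_range_succ, Finset.sum_range_zero]
  norm_num

theorem G_three (y : ℂ) (hy : y ^ 3 = 1) : G 3 y = (2 * y + 1) / 3 := by
  unfold G
  simp only [Finset.sum_range_succ, Finset.sum_range_zero]
  norm_num
  have e4 : y ^ 4 = y := by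
    have : y ^ 4 = y ^ 3 * y := by ring
    rw [this, hy]
    ring
  have e9 : y ^ 9 = 1 := by
    have : y ^ 9 = (y ^ 3) ^ 3 := by ring
    rw [this, hy]
    ring
  rw [e4, e9]
  ring

theorem G_four_le (y : ℂ) (hy : IsPrimitiveRoot y 4) : ‖G 4 y‖ ≤ 70711 / 100000 := by
  have hy4 : y ^ 4 = 1 := hy.pow_eq_one
  have hy2 : y ^ 2 = -1 := by
    have h1 : (y ^ 2 - 1) * (y ^ 2 + 1) = 0 := by linear_combination hy4
    rcases mul_eq_zero.mp h1 with h | h
    · exfalso
      have h2 : y ^ 2 = 1 := by linear_combination h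
      have := (hy.pow_eq_one_iff_dvd 2).mp h2
      omega
    · linear_combination h
  have hG : G 4 y = (1 + y) / 2 := by
    unfold G
    simp only [Finset.sum_range_succ, Finset.sum_range_zero]
    norm_num
    have e9 : y ^ 9 = y := by
      have : y ^ 9 = (y ^ 4) ^ 2 * y := by ring
      rw [this, hy4]
      ring
    have e16 : y ^ 16 = 1 := by
      have : y ^ 16 = (y ^ 4) ^ 4 := by ring
      rw [this, hy4]
      ring
    rw [hy4, e9, e16]
    ring
  rw [hG, norm_div]
  have h2 : ‖(2 : ℂ)‖ = 2 := by simp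
  rw [h2, div_le_iff₀ (by norm_num)]
  have hn : ‖1 + y‖ ^ 2 = 2 := by
    have hyI : y = I ∨ y = -I := by
      have : (y - I) * (y + I) = 0 := by
        linear_combination hy2 - Complex.I_sq
      rcases mul_eq_zero.mp this with h | h
      · left; linear_combination h
      · right; linear_combination h
    rw [← Complex.normSq_eq_norm_sq]
    rcases hyI with rfl | rfl
    · simp [Complex.normSq_apply]
      norm_num
    · simp [Complex.normSq_apply]
      norm_num
  nlinarith [norm_nonneg (1 + y)]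

theorem G_three_le (y : ℂ) (hy : IsPrimitiveRoot y 3) : ‖G 3 y‖ ≤ 5774 / 10000 := by
  have hy3 : y ^ 3 = 1 := hy.pow_eq_one
  have hyq : y ^ 2 + y + 1 = 0 := by
    have h1 : (y - 1) * (y ^ 2 + y + 1) = 0 := by linear_combination hy3
    rcases mul_eq_zero.mp h1 with h | h
    · exfalso
      have h2 : y ^ 1 = 1 := by linear_combination h
      have := (hy.pow_eq_one_iff_dvd 1).mp h2
      omega
    · exact h
  rw [G_three y hy3, norm_div]
  have h2 : ‖(3 : ℂ)‖ = 3 := by simp
  rw [h2, div_le_iff₀ (by norm_num)]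
  have hsq : (2 * y + 1) ^ 2 = -3 := by linear_combination 4 * hyq
  have hn : ‖2 * y + 1‖ ^ 2 = 3 := by
    rw [← norm_pow, hsq]
    simp
  nlinarith [norm_nonneg (2 * y + 1)]

end Pool.Agent.R456.PP
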