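import Mathlib
import Pool.Agent.R456.PP.Gauss

/-!
# Comparison of the growth constants at all roots of unity
-/

namespace Pool.Agent.R456.PP

open Finset Filter Topology Complex

/-- A primitive cube root of unity. -/
noncomputable def zeta : ℂ := cexp (2 * Real.pi * I / 3)

theorem zeta_prim : IsPrimitiveRoot zeta 3 := by
  have h := Complex.isPrimitiveRoot_exp 3 (by norm_num)
  have e : ((3 : ℕ) : ℂ) = 3 := by norm_num
  rw [e] at h
  exact h

theorem zeta_pow : zeta ^ 3 = 1 := zeta_prim.pow_eq_one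

theorem zeta_rel : zeta ^ 2 + zeta + 1 = 0 := by
  have h1 : (zeta - 1) * (zeta ^ 2 + zeta + 1) = 0 := by linear_combination zeta_pow
  rcases mul_eq_zero.mp h1 with h | h
  · exfalso
    have h2 : zeta ^ 1 = 1 := by linear_combination h
    have := (zeta_prim.pow_eq_one_iff_dvd 1).mp h2
    omega
  · exact h

theorem zeta_norm : ‖zeta‖ = 1 := norm_eq_one_of_pow zeta 3 (by norm_num) zeta_pow

theorem zeta_re : zeta.re = -1 / 2 := by
  have h1 := zeta_norm
  have h2 : Complex.normSq zeta = 1 := by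
    rw [Complex.normSq_eq_norm_sq, h1]
    norm_num
  rw [Complex.normSq_apply] at h2
  have h0 : zeta * zeta + zeta + 1 = 0 := by linear_combination zeta_rel
  have h3 := congrArg Complex.re h0
  have h4 := congrArg Complex.im h0
  simp only [Complex.add_re, Complex.mul_re, Complex.one_re, Complex.zero_re, Complex.add_im,
    Complex.mul_im, Complex.one_im, Complex.zero_im] at h3 h4
  have h5 : zeta.im * (2 * zeta.re + 1) = 0 := by linear_combination h4
  rcases mul_eq_zero.mp h5 with h | h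
  · exfalso
    rw [h] at h2 h3
    nlinarith
  · linarith

theorem zeta_im : zeta.im = Real.sqrt 3 / 2 := by
  have h : zeta = cexp (((2 * Real.pi / 3 : ℝ) : ℂ) * I) := by
    unfold zeta
    congr 1
    push_cast
    ring
  rw [h, Complex.exp_ofReal_mul_I_im]
  have : 2 * Real.pi / 3 = Real.pi - Real.pi / 3 := by ring
  rw [this, Real.sin_pi_sub, Real.sin_pi_div_three]

theorem zeta_im_pos : 0 < zeta.im := by
  rw [zeta_im]
  positivity

theorem zeta_pow_mod (n : ℕ) : zeta ^ n = zeta ^ (n % 3) := by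
  conv_lhs => rw [← Nat.div_add_mod n 3, pow_add, pow_mul, zeta_pow, one_pow, one_mul]

theorem zeta_sq : zeta ^ 2 = -zeta - 1 := by linear_combination zeta_rel

theorem zeta_pow_re (n : ℕ) : (zeta ^ n).re = -1 / 2 + 3 / 2 * (if 3 ∣ n then 1 else 0) := by
  rw [zeta_pow_mod]
  have h : n % 3 = 0 ∨ n % 3 = 1 ∨ n % 3 = 2 := by omega
  rcases h with h | h | h
  · rw [h, if_pos (Nat.dvd_of_mod_eq_zero h)]
    norm_num
  · rw [h, if_neg (by omega), pow_one, zeta_re]
    norm_num
  · rw [h, if_neg (by omega), zeta_sq]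
    simp [zeta_re]
    norm_num

/-- The sum of `q`. -/
noncomputable def Z : ℝ := ∑' n, q n

theorem Z_pos : 0 < Z := by
  unfold Z
  apply summable_q.tsum_pos q_nonneg 1
  unfold q
  norm_num

theorem tsum_dvd (d : ℕ) (hd : 0 < d) : ∑' n, (if d ∣ n then q n else 0) = q d * Z := by
  have hinj : Function.Injective (fun k : ℕ => d * k) := by
    intro a b hab
    exact Nat.eq_of_mul_eq_mul_left hd hab
  have h1 : ∑' k : ℕ, (fun n => if d ∣ n then q n else 0) (d * k) =
      ∑' n, (if d ∣ n then q n else 0) := by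
    apply hinj.tsum_eq (f := fun n => if d ∣ n then q n else 0)
    intro n hn
    rw [Function.mem_support] at hn
    by_cases hdn : d ∣ n
    · obtain ⟨k, hk⟩ := hdn
      exact ⟨k, hk.symm⟩
    · simp [hdn] at hn
  rw [← h1]
  unfold Z
  rw [← tsum_mul_left]
  apply tsum_congr
  intro k
  simp only [dvd_mul_right, if_true]
  exact q_mul d k

theorem summable_dvd (d : ℕ) : Summable (fun n => if d ∣ n then q n else 0) := by
  apply Summable.of_nonneg_of_le _ _ summable_q
  · intro n
    split_ifs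
    · exact q_nonneg n
    · exact le_refl _
  · intro n
    split_ifs
    · exact le_refl _
    · exact q_nonneg n

theorem q_antitone {a b : ℕ} (ha : 0 < a) (hab : a ≤ b) : q b ≤ q a := by
  unfold q
  have haR : (0 : ℝ) < a := by exact_mod_cast ha
  have habR : (a : ℝ) ≤ b := by exact_mod_cast hab
  have hsa : 0 < Real.sqrt a := Real.sqrt_pos.mpr haR
  apply one_div_le_one_div_of_le (by positivity)
  exact mul_le_mul habR (Real.sqrt_le_sqrt habR) hsa.le (by linarith)

theorem q_upper (n : ℕ) (a b : ℝ) (_hb : 0 ≤ b) (hn : 0 < (n : ℝ)) (ha : 0 < a)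
    (h : b ^ 2 ≤ n) (hab : 1 ≤ a * (n * b)) : q n ≤ a := by
  unfold q
  have h1 : b ≤ Real.sqrt n := Real.le_sqrt_of_sq_le h
  have hs : 0 < Real.sqrt n := Real.sqrt_pos.mpr hn
  rw [div_le_iff₀ (by positivity)]
  have h2 : (n : ℝ) * b ≤ n * Real.sqrt n := mul_le_mul_of_nonneg_left h1 hn.le
  have h3 : a * (n * b) ≤ a * (n * Real.sqrt n) := mul_le_mul_of_nonneg_left h2 ha.le
  linarith

theorem q2_le : q 2 ≤ 35356 / 100000 := by
  apply q_upper 2 _ (14142 / 10000) <;> norm_num

theorem q2_ge : 35355 / 100000 ≤ q 2 := by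
  unfold q
  have h1 : Real.sqrt ((2 : ℕ) : ℝ) ≤ 141422 / 100000 := by
    rw [Real.sqrt_le_left (by norm_num)]
    norm_num
  have hs : 0 < Real.sqrt ((2 : ℕ) : ℝ) := Real.sqrt_pos.mpr (by norm_num)
  rw [le_div_iff₀ (by positivity)]
  push_cast at h1 ⊢
  nlinarith

theorem q3_le : q 3 ≤ 19246 / 100000 := by
  apply q_upper 3 _ (17320 / 10000) <;> norm_num

theorem q3_ge : 1924 / 10000 ≤ q 3 := by
  unfold q
  have h1 : Real.sqrt ((3 : ℕ) : ℝ) ≤ 17321 / 10000 := by
    rw [Real.sqrt_le_left (by norm_num)]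
    norm_num
  have hs : 0 < Real.sqrt ((3 : ℕ) : ℝ) := Real.sqrt_pos.mpr (by norm_num)
  rw [le_div_iff₀ (by positivity)]
  push_cast at h1 ⊢
  nlinarith

theorem q4_le : q 4 ≤ 1 / 8 := by
  apply q_upper 4 _ 2 <;> norm_num

theorem q5_le : q 5 ≤ 895 / 10000 := by
  apply q_upper 5 _ (2236 / 1000) <;> norm_num

theorem q6_le : q 6 ≤ 681 / 10000 := by
  apply q_upper 6 _ (2449 / 1000) <;> norm_num

theorem q8_le : q 8 ≤ 442 / 10000 := by
  apply q_upper 8 _ (28284 / 10000) <;> norm_num

theorem q12_le : q 12 ≤ 241 / 10000 := by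
  apply q_upper 12 _ (3464 / 1000) <;> norm_num

/-- `Λ`. -/
noncomputable def Lam : ℝ := Z * (1 / 2 + 1 / 2 * q 3)

theorem Lam_ge : 5962 / 10000 * Z ≤ Lam := by
  unfold Lam
  have := q3_ge
  have hZ := Z_pos
  nlinarith

/-- The upper bound for the Gauss means. -/
noncomputable def hb (k : ℕ) : ℝ :=
  if k = 1 then 1 else if k = 2 then 0 else if k = 3 then 5774 / 10000
  else if k = 4 then 70711 / 100000 else 1 / 2

theorem norm_G_hb (N : ℕ) (hN : 0 < N) (y : ℂ) (hy : y ^ N = 1) :
    ‖G N y‖ ≤ hb (orderOf y) := by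
  set R := orderOf y with hR
  have hdvd : R ∣ N := orderOf_dvd_of_pow_eq_one hy
  have hRpos : 0 < R := Nat.pos_of_dvd_of_pos hdvd hN
  have hprim : IsPrimitiveRoot y R := IsPrimitiveRoot.orderOf y
  have hyR : y ^ R = 1 := hprim.pow_eq_one
  rw [G_eq N R hRpos hdvd hN y hyR]
  unfold hb
  split_ifs with h1 h2 h3 h4
  · exact norm_G_le R y (norm_eq_one_of_pow y R hRpos hyR)
  · rw [h2] at hprim ⊢
    have : y = -1 := hprim.eq_neg_one_of_two_right
    rw [this, G_two, norm_zero]
  · rw [h3] at hprim ⊢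
    exact G_three_le y hprim
  · rw [h4] at hprim ⊢
    exact G_four_le y hprim
  · exact G_le_half R (by omega) y hprim

theorem orderOf_pow_eq (z0 : ℂ) (N : ℕ) (hN : 0 < N) (hz : z0 ^ N = 1) (n : ℕ) :
    orderOf (z0 ^ n) = orderOf z0 / Nat.gcd (orderOf z0) n := by
  have hfin : IsOfFinOrder z0 := isOfFinOrder_iff_pow_eq_one.mpr ⟨N, hN, hz⟩
  exact hfin.orderOf_pow (n := n)

/-- General comparison. -/
theorem re_lam_le (z0 : ℂ) (N : ℕ) (hN : 0 < N) (hz : z0 ^ N = 1) (B : ℕ → ℝ)
    (hB : ∀ n, (zeta ^ n * G N (z0 ^ n)).re ≤ B n) (hs : Summable (fun n => q n * B n)) :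
    (lam zeta z0 N).re ≤ ∑' n, q n * B n := by
  have hz1 : ‖z0‖ = 1 := norm_eq_one_of_pow z0 N hN hz
  have hsum := summable_lam zeta z0 zeta_norm.le N hz1
  have h1 : (lam zeta z0 N).re = ∑' n, ((q n : ℂ) * (zeta ^ n * G N (z0 ^ n))).re := by
    unfold lam
    rw [Complex.re_tsum hsum]
  rw [h1]
  have h2 : ∀ n, ((q n : ℂ) * (zeta ^ n * G N (z0 ^ n))).re = q n *
      (zeta ^ n * G N (z0 ^ n)).re := by
    intro n
    rw [Complex.re_ofReal_mul]
  have h3 : Summable (fun n => ((q n : ℂ) * (zeta ^ n * G N (z0 ^ n))).re) :=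
    (Complex.hasSum_re hsum.hasSum).summable
  apply h3.tsum_le_tsum _ hs
  intro n
  rw [h2]
  exact mul_le_mul_of_nonneg_left (hB n) (q_nonneg n)

theorem re_le_hb (z0 : ℂ) (N : ℕ) (hN : 0 < N) (hz : z0 ^ N = 1) (n : ℕ) :
    (zeta ^ n * G N (z0 ^ n)).re ≤ hb (orderOf z0 / Nat.gcd (orderOf z0) n) := by
  refine (Complex.re_le_norm _).trans ?_
  rw [norm_mul, norm_pow, zeta_norm, one_pow, one_mul, ← orderOf_pow_eq z0 N hN hz n]
  apply norm_G_hb N hN
  rw [← pow_mul, mul_comm, pow_mul, hz, one_pow]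

/-- The indicator of divisibility. -/
noncomputable def ind (d n : ℕ) : ℝ := if d ∣ n then 1 else 0

theorem q_ind (d n : ℕ) : q n * ind d n = if d ∣ n then q n else 0 := by
  unfold ind
  split_ifs <;> simp

theorem summable_ind (d : ℕ) : Summable (fun n => q n * ind d n) := by
  simp only [q_ind]
  exact summable_dvd d

theorem tsum_ind (d : ℕ) (hd : 0 < d) : ∑' n, q n * ind d n = q d * Z := by
  simp only [q_ind]
  exact tsum_dvd d hd

theorem q_one : q 1 = 1 := by
  unfold q
  norm_num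

/-- A linear combination of indicators. -/
theorem tsum_comb (c0 c1 c2 c3 : ℝ) (d1 d2 d3 : ℕ) (h1 : 0 < d1) (h2 : 0 < d2) (h3 : 0 < d3) :
    Summable (fun n => q n * (c0 + c1 * ind d1 n + c2 * ind d2 n + c3 * ind d3 n)) ∧
    ∑' n, q n * (c0 + c1 * ind d1 n + c2 * ind d2 n + c3 * ind d3 n) =
      (c0 + c1 * q d1 + c2 * q d2 + c3 * q d3) * Z := by
  have e : (fun n => q n * (c0 + c1 * ind d1 n + c2 * ind d2 n + c3 * ind d3 n)) =
      fun n => c0 * q n + c1 * (q n * ind d1 n) + c2 * (q n * ind d2 n) +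
        c3 * (q n * ind d3 n) := by
    funext n
    ring
  have s0 : Summable (fun n => c0 * q n) := summable_q.mul_left c0
  have s1 : Summable (fun n => c1 * (q n * ind d1 n)) := (summable_ind d1).mul_left c1
  have s2 : Summable (fun n => c2 * (q n * ind d2 n)) := (summable_ind d2).mul_left c2
  have s3 : Summable (fun n => c3 * (q n * ind d3 n)) := (summable_ind d3).mul_left c3
  rw [e]
  refine ⟨((s0.add s1).add s2).add s3, ?_⟩
  rw [((s0.add s1).add s2).tsum_add s3, (s0.add s1).tsum_add s2, s0.tsum_add s1,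
    tsum_mul_left, tsum_mul_left, tsum_mul_left, tsum_mul_left, tsum_ind d1 h1, tsum_ind d2 h2,
    tsum_ind d3 h3]
  unfold Z
  ring

/-- The main comparison: the real part of `λ` is at most `Λ` at every root of unity. -/
theorem re_lam_le_Lam (z0 : ℂ) (N : ℕ) (hN : 0 < N) (hz : z0 ^ N = 1) :
    (lam zeta z0 N).re ≤ Lam := by
  set r := orderOf z0 with hr
  have hdvd : r ∣ N := orderOf_dvd_of_pow_eq_one hz
  have hrpos : 0 < r := Nat.pos_of_dvd_of_pos hdvd hN
  have hprim : IsPrimitiveRoot z0 r := IsPrimitiveRoot.orderOf z0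
  have hLam := Lam_ge
  have hZ := Z_pos
  have hB0 := re_le_hb z0 N hN hz
  rw [← hr] at hB0
  by_cases r1 : r = 1
  · -- `z0 = 1`
    rw [r1] at hprim
    have hz01 : z0 = 1 := IsPrimitiveRoot.one_right_iff.mp hprim
    have hB : ∀ n, (zeta ^ n * G N (z0 ^ n)).re ≤
        -1 / 2 + 3 / 2 * ind 3 n + 0 * ind 1 n + 0 * ind 1 n := by
      intro n
      rw [hz01, one_pow, G_eq N 1 one_pos (one_dvd N) hN 1 (one_pow 1), G_one, mul_one,
        zeta_pow_re]
      unfold ind
      linarith
    obtain ⟨hs, ht⟩ := tsum_comb (-1 / 2) (3 / 2) 0 0 3 1 1 (by norm_num) one_pos one_pos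
    have h1 := re_lam_le z0 N hN hz _ hB hs
    rw [ht] at h1
    refine h1.trans ?_
    unfold Lam
    have := q3_le
    nlinarith
  by_cases r2 : r = 2
  · have hB : ∀ n, (zeta ^ n * G N (z0 ^ n)).re ≤
        0 + 1 * ind 2 n + 0 * ind 1 n + 0 * ind 1 n := by
      intro n
      refine (hB0 n).trans ?_
      rw [r2]
      unfold ind
      rcases Nat.even_or_odd n with he | ho
      · have h2 : 2 ∣ n := he.two_dvd
        have hg : Nat.gcd 2 n = 2 := Nat.gcd_eq_left h2
        rw [hg, if_pos h2]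
        norm_num [hb]
      · have h2 : ¬ 2 ∣ n := by
          rw [← even_iff_two_dvd, Nat.not_even_iff_odd]
          exact ho
        have hg : Nat.gcd 2 n = 1 := (Nat.coprime_two_left.mpr ho)
        rw [hg, if_neg h2]
        norm_num [hb]
    obtain ⟨hs, ht⟩ := tsum_comb 0 1 0 0 2 1 1 (by norm_num) one_pos one_pos
    have h1 := re_lam_le z0 N hN hz _ hB hs
    rw [ht] at h1
    refine h1.trans ?_
    have := q2_le
    nlinarith
  by_cases r3 : r = 3
  · rw [r3] at hprim hdvd
    have hz3 : z0 ^ 3 = 1 := hprim.pow_eq_one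
    have hB : ∀ n, (zeta ^ n * G N (z0 ^ n)).re ≤
        1 / 2 + 1 / 2 * ind 3 n + 0 * ind 1 n + 0 * ind 1 n := by
      intro n
      have hy : (z0 ^ n) ^ 3 = 1 := by
        rw [← pow_mul, mul_comm, pow_mul, hz3, one_pow]
      rw [G_eq N 3 (by norm_num) hdvd hN _ hy, G_three _ hy]
      have e1 : zeta ^ n * ((2 * z0 ^ n + 1) / 3) =
          ((1 / 3 : ℝ) : ℂ) * (2 * (zeta ^ n * z0 ^ n) + zeta ^ n) := by
        push_cast
        ring
      rw [e1, Complex.re_ofReal_mul, Complex.add_re, zeta_pow_re]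
      have h2 : (2 * (zeta ^ n * z0 ^ n)).re ≤ 2 := by
        have h3 := Complex.re_le_norm (2 * (zeta ^ n * z0 ^ n))
        have hz1 : ‖z0‖ = 1 := norm_eq_one_of_pow z0 3 (by norm_num) hz3
        rw [norm_mul, norm_mul, norm_pow, norm_pow, zeta_norm, hz1, one_pow] at h3
        simpa using h3
      unfold ind
      split_ifs <;> linarith
    obtain ⟨hs, ht⟩ := tsum_comb (1 / 2) (1 / 2) 0 0 3 1 1 (by norm_num) one_pos one_pos
    have h1 := re_lam_le z0 N hN hz _ hB hs
    rw [ht] at h1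
    refine h1.trans ?_
    unfold Lam
    linarith
  by_cases r4 : r = 4
  · have hB : ∀ n, (zeta ^ n * G N (z0 ^ n)).re ≤
        70711 / 100000 + (-70711 / 100000) * ind 2 n + 1 * ind 4 n + 0 * ind 1 n := by
      intro n
      refine (hB0 n).trans ?_
      rw [r4]
      unfold ind
      have hg : Nat.gcd 4 n = Nat.gcd 4 (n % 4) := by
        rw [Nat.gcd_rec 4 n]
        exact Nat.gcd_comm _ _
      have h4 : n % 4 = 0 ∨ n % 4 = 1 ∨ n % 4 = 2 ∨ n % 4 = 3 := by omega
      rcases h4 with h | h | h | h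
      · rw [hg, h, if_pos (by omega), if_pos (by omega)]
        norm_num [hb]
      · rw [hg, h, if_neg (by omega), if_neg (by omega)]
        norm_num [hb]
      · rw [hg, h, if_pos (by omega), if_neg (by omega)]
        norm_num [hb]
      · rw [hg, h, if_neg (by omega), if_neg (by omega)]
        norm_num [hb]
    obtain ⟨hs, ht⟩ := tsum_comb (70711 / 100000) (-70711 / 100000) 1 0 2 4 1
      (by norm_num) (by norm_num) one_pos
    have h1 := re_lam_le z0 N hN hz _ hB hs
    rw [ht] at h1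
    refine h1.trans ?_
    have := q2_ge
    have := q4_le
    nlinarith
  -- now `r ≥ 5`
  have r5 : 5 ≤ r := by omega
  -- classification of the quotients
  have hq1 : ∀ n, r / Nat.gcd r n = 1 → r ∣ n := by
    intro n h
    have hg := Nat.gcd_dvd_left r n
    have h2 := Nat.div_mul_cancel hg
    rw [h, one_mul] at h2
    rw [← h2]
    exact Nat.gcd_dvd_right r n
  have hqk : ∀ k n, 0 < k → r / Nat.gcd r n = k → k ∣ r ∧ (r / k) ∣ n := by
    intro k n hk h
    have hg := Nat.gcd_dvd_left r n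
    have h2 := Nat.div_mul_cancel hg
    rw [h] at h2
    refine ⟨⟨_, h2.symm⟩, ?_⟩
    have h3 : r / k = Nat.gcd r n := by
      conv_lhs => rw [← h2]
      exact Nat.mul_div_cancel_left _ hk
    rw [h3]
    exact Nat.gcd_dvd_right r n
  have hqpos : ∀ n, 0 < r / Nat.gcd r n := fun n =>
    Nat.div_pos (Nat.le_of_dvd hrpos (Nat.gcd_dvd_left r n)) (Nat.gcd_pos_of_pos_left n hrpos)
  by_cases h3 : 3 ∣ r
  · by_cases h4 : 4 ∣ r
    · -- `12 ∣ r`
      have h12 : 12 ≤ r := by
        have h12d : 12 ∣ r := (Nat.Coprime.mul_dvd_of_dvd_of_dvd (by norm_num) h3 h4)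
        exact Nat.le_of_dvd hrpos h12d
      have hB : ∀ n, (zeta ^ n * G N (z0 ^ n)).re ≤
          1 / 2 + 1 / 2 * ind r n + 774 / 10000 * ind (r / 3) n +
            20711 / 100000 * ind (r / 4) n := by
        intro n
        refine (hB0 n).trans ?_
        unfold hb ind
        split_ifs with k1 k2 k3 k4 k5 k6 k7 k8 <;> first | (exfalso; first | exact k2 (hq1 n k1) | exact k3 (hqk 3 n (by norm_num) (by assumption)).2 | exact (by assumption : ¬ r ∣ n) (hq1 n (by assumption)) | exact (by assumption : ¬ (r / 3) ∣ n) (hqk 3 n (by norm_num) (by assumption)).2 | exact (by assumption : ¬ (r / 4) ∣ n) (hqk 4 n (by norm_num) (by assumption)).2) | norm_num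
      obtain ⟨hs, ht⟩ := tsum_comb (1 / 2) (1 / 2) (774 / 10000) (20711 / 100000) r (r / 3) (r / 4)
        hrpos (by omega) (by omega)
      have h1 := re_lam_le z0 N hN hz _ hB hs
      rw [ht] at h1
      refine h1.trans ?_
      have e1 := (q_antitone (by norm_num) h12).trans q12_le
      have e2 := (q_antitone (by norm_num) (show 4 ≤ r / 3 by omega)).trans q4_le
      have e3 := (q_antitone (by norm_num) (show 3 ≤ r / 4 by omega)).trans q3_le
      nlinarith
    · have h6 : 6 ≤ r := by omega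
      have hB : ∀ n, (zeta ^ n * G N (z0 ^ n)).re ≤
          1 / 2 + 1 / 2 * ind r n + 774 / 10000 * ind (r / 3) n + 0 * ind 1 n := by
        intro n
        refine (hB0 n).trans ?_
        have hne4 : r / Nat.gcd r n ≠ 4 := fun h => h4 (hqk 4 n (by norm_num) h).1
        unfold hb ind
        split_ifs <;> first | (exfalso; first | exact (by assumption : ¬ r ∣ n) (hq1 n (by assumption)) | exact (by assumption : ¬ (r / 3) ∣ n) (hqk 3 n (by norm_num) (by assumption)).2 | exact hne4 (by assumption)) | norm_num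
      obtain ⟨hs, ht⟩ := tsum_comb (1 / 2) (1 / 2) (774 / 10000) 0 r (r / 3) 1
        hrpos (by omega) one_pos
      have h1 := re_lam_le z0 N hN hz _ hB hs
      rw [ht] at h1
      refine h1.trans ?_
      have e1 := (q_antitone (by norm_num) h6).trans q6_le
      have e2 := (q_antitone (by norm_num) (show 2 ≤ r / 3 by omega)).trans q2_le
      nlinarith
  · by_cases h4 : 4 ∣ r
    · have h8 : 8 ≤ r := by omega
      have hB : ∀ n, (zeta ^ n * G N (z0 ^ n)).re ≤
          1 / 2 + 1 / 2 * ind r n + 20711 / 100000 * ind (r / 4) n + 0 * ind 1 n := by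
        intro n
        refine (hB0 n).trans ?_
        have hne3 : r / Nat.gcd r n ≠ 3 := fun h => h3 (hqk 3 n (by norm_num) h).1
        unfold hb ind
        split_ifs <;> first | (exfalso; first | exact (by assumption : ¬ r ∣ n) (hq1 n (by assumption)) | exact (by assumption : ¬ (r / 4) ∣ n) (hqk 4 n (by norm_num) (by assumption)).2 | exact hne3 (by assumption)) | norm_num
      obtain ⟨hs, ht⟩ := tsum_comb (1 / 2) (1 / 2) (20711 / 100000) 0 r (r / 4) 1
        hrpos (by omega) one_pos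
      have h1 := re_lam_le z0 N hN hz _ hB hs
      rw [ht] at h1
      refine h1.trans ?_
      have e1 := (q_antitone (by norm_num) h8).trans q8_le
      have e2 := (q_antitone (by norm_num) (show 2 ≤ r / 4 by omega)).trans q2_le
      nlinarith
    · have hB : ∀ n, (zeta ^ n * G N (z0 ^ n)).re ≤
          1 / 2 + 1 / 2 * ind r n + 0 * ind 1 n + 0 * ind 1 n := by
        intro n
        refine (hB0 n).trans ?_
        have hne3 : r / Nat.gcd r n ≠ 3 := fun h => h3 (hqk 3 n (by norm_num) h).1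
        have hne4 : r / Nat.gcd r n ≠ 4 := fun h => h4 (hqk 4 n (by norm_num) h).1
        unfold hb ind
        split_ifs <;> first | (exfalso; first | exact (by assumption : ¬ r ∣ n) (hq1 n (by assumption)) | exact hne3 (by assumption) | exact hne4 (by assumption)) | norm_num
      obtain ⟨hs, ht⟩ := tsum_comb (1 / 2) (1 / 2) 0 0 r 1 1
        hrpos one_pos one_pos
      have h1 := re_lam_le z0 N hN hz _ hB hs
      rw [ht] at h1
      refine h1.trans ?_
      have e1 := (q_antitone (by norm_num) r5).trans q5_le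
      nlinarith

/-! ### The extremal root of unity -/

theorem star_term (n : ℕ) : zeta ^ n * G 3 ((zeta ^ 2) ^ n) =
    ((1 / 3 : ℝ) : ℂ) * (2 + zeta ^ n) := by
  have hy : ((zeta ^ 2) ^ n) ^ 3 = 1 := by
    have e : ((zeta ^ 2) ^ n) ^ 3 = (zeta ^ 3) ^ (2 * n) := by ring
    rw [e, zeta_pow, one_pow]
  rw [G_three _ hy]
  have e : zeta ^ n * (zeta ^ 2) ^ n = 1 := by
    rw [← pow_mul, ← pow_add]
    have : n + 2 * n = 3 * n := by ring
    rw [this, pow_mul, zeta_pow, one_pow]
  push_cast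
  linear_combination (2 / 3 : ℂ) * e

theorem star_sq : (zeta ^ 2) ^ 3 = 1 := by
  rw [← pow_mul, mul_comm, pow_mul, zeta_pow, one_pow]

theorem lam_star_re : (lam zeta (zeta ^ 2) 3).re = Lam := by
  have hz1 : ‖zeta ^ 2‖ = 1 := by rw [norm_pow, zeta_norm, one_pow]
  have hsum := summable_lam zeta (zeta ^ 2) zeta_norm.le 3 hz1
  have h1 : (lam zeta (zeta ^ 2) 3).re =
      ∑' n, ((q n : ℂ) * (zeta ^ n * G 3 ((zeta ^ 2) ^ n))).re := by
    unfold lam
    rw [Complex.re_tsum hsum]
  have h2 : ∀ n, ((q n : ℂ) * (zeta ^ n * G 3 ((zeta ^ 2) ^ n))).re =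
      q n * (1 / 2 + 1 / 2 * ind 3 n + 0 * ind 1 n + 0 * ind 1 n) := by
    intro n
    rw [Complex.re_ofReal_mul, star_term, Complex.re_ofReal_mul, Complex.add_re, zeta_pow_re]
    unfold ind
    congr 1
    have : (2 : ℂ).re = 2 := rfl
    rw [this]
    ring
  rw [h1, tsum_congr h2, (tsum_comb (1 / 2) (1 / 2) 0 0 3 1 1 (by norm_num) one_pos one_pos).2]
  unfold Lam
  ring

theorem zeta_pow_im_zero (m : ℕ) : (zeta ^ (0 + 3 * m)).im = 0 := by
  rw [zero_add, pow_mul, zeta_pow, one_pow, Complex.one_im]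

theorem zeta_pow_im_one (m : ℕ) : (zeta ^ (1 + 3 * m)).im = zeta.im := by
  rw [pow_add, pow_mul, zeta_pow, one_pow, mul_one, pow_one]

theorem zeta_pow_im_two (m : ℕ) : (zeta ^ (2 + 3 * m)).im = -zeta.im := by
  rw [pow_add, pow_mul, zeta_pow, one_pow, mul_one, zeta_sq]
  simp

theorem lam_star_im : 0 < (lam zeta (zeta ^ 2) 3).im := by
  have hz1 : ‖zeta ^ 2‖ = 1 := by rw [norm_pow, zeta_norm, one_pow]
  have hsum := summable_lam zeta (zeta ^ 2) zeta_norm.le 3 hz1
  have h1 : (lam zeta (zeta ^ 2) 3).im =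
      ∑' n, ((q n : ℂ) * (zeta ^ n * G 3 ((zeta ^ 2) ^ n))).im := by
    unfold lam
    rw [Complex.im_tsum hsum]
  have h2 : ∀ n, ((q n : ℂ) * (zeta ^ n * G 3 ((zeta ^ 2) ^ n))).im =
      1 / 3 * (q n * (zeta ^ n).im) := by
    intro n
    rw [Complex.im_ofReal_mul, star_term, Complex.im_ofReal_mul, Complex.add_im]
    have : (2 : ℂ).im = 0 := rfl
    rw [this]
    ring
  have hs : Summable (fun n => q n * (zeta ^ n).im) := by
    apply Summable.of_norm_bounded summable_q
    intro n
    rw [norm_mul, Real.norm_of_nonneg (q_nonneg n)]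
    calc q n * ‖(zeta ^ n).im‖ ≤ q n * 1 := by
          apply mul_le_mul_of_nonneg_left _ (q_nonneg n)
          have := Complex.abs_im_le_norm (zeta ^ n)
          rw [norm_pow, zeta_norm, one_pow] at this
          exact this
      _ = q n := mul_one _
  rw [h1, tsum_congr h2, tsum_mul_left]
  have h3 : ∑' n, q n * (zeta ^ n).im = zeta.im * ∑' m, (q (1 + 3 * m) - q (2 + 3 * m)) := by
    rw [Nat.sumByResidueClasses hs 3]
    have hinj1 : Function.Injective (fun k : ℕ => 1 + 3 * k) := by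
      intro a b hab
      simp only at hab
      omega
    have hinj2 : Function.Injective (fun k : ℕ => 2 + 3 * k) := by
      intro a b hab
      simp only at hab
      omega
    have s1 : Summable (fun m => q (1 + 3 * m)) := summable_q.comp_injective hinj1
    have s2 : Summable (fun m => q (2 + 3 * m)) := summable_q.comp_injective hinj2
    have hfin : ∀ f : ZMod 3 → ℝ, ∑ j : ZMod 3, f j = f 0 + f 1 + f 2 := by
      intro f
      exact Fin.sum_univ_three f
    rw [hfin]
    have v0 : (0 : ZMod 3).val = 0 := rfl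
    have v1 : (1 : ZMod 3).val = 1 := rfl
    have v2 : (2 : ZMod 3).val = 2 := rfl
    rw [v0, v1, v2]
    simp only [zeta_pow_im_zero, zeta_pow_im_one, zeta_pow_im_two]
    have t1 : ∑' m : ℕ, q (2 + 3 * m) * -zeta.im = -zeta.im * ∑' m : ℕ, q (2 + 3 * m) := by
      rw [tsum_mul_right, mul_comm]
    have t2 : ∑' m : ℕ, q (1 + 3 * m) * zeta.im = zeta.im * ∑' m : ℕ, q (1 + 3 * m) := by
      rw [tsum_mul_right, mul_comm]
    rw [t1, t2, s1.tsum_sub s2]
    simp only [mul_zero, tsum_zero]
    ring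
  rw [h3]
  have hinj1 : Function.Injective (fun k : ℕ => 1 + 3 * k) := by
    intro a b hab
    simp only at hab
    omega
  have hinj2 : Function.Injective (fun k : ℕ => 2 + 3 * k) := by
    intro a b hab
    simp only at hab
    omega
  have s1 : Summable (fun m => q (1 + 3 * m)) := summable_q.comp_injective hinj1
  have s2 : Summable (fun m => q (2 + 3 * m)) := summable_q.comp_injective hinj2
  have h4 : 0 < ∑' m, (q (1 + 3 * m) - q (2 + 3 * m)) := by
    apply (s1.sub s2).tsum_pos _ 0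
    · show 0 < q 1 - q 2
      rw [q_one]
      have := q2_le
      linarith
    · intro m
      have := q_antitone (show 0 < 1 + 3 * m by omega) (show 1 + 3 * m ≤ 2 + 3 * m by omega)
      linarith
  have := zeta_im_pos
  positivity

end Pool.Agent.R456.PP
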