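import Mathlib
import Pool.Agent.R456.PP.Lam

/-!
# Finite Fourier expansion and the tilted direction
-/

namespace Pool.Agent.R456.PP

open Finset Filter Topology Complex

/-- Finite Fourier expansion of a periodic sequence. -/
theorem exists_fourier (N : ℕ) (hN : 0 < N) (V : ℕ → ℂ) (hV : ∀ n, V (n + N) = V n) :
    ∃ (e : ℂ) (a : ℕ → ℂ), e ^ N = 1 ∧
      ∀ n, V n = ∑ t ∈ range N, a t * (e ^ t) ^ n := by
  have hNC : (N : ℂ) ≠ 0 := by exact_mod_cast hN.ne'
  obtain ⟨e, he⟩ : ∃ e : ℂ, IsPrimitiveRoot e N :=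
    ⟨_, Complex.isPrimitiveRoot_exp N hN.ne'⟩
  have heN : e ^ N = 1 := he.pow_eq_one
  have he0 : e ≠ 0 := he.ne_zero hN.ne'
  refine ⟨e, fun t => (1 / N) * ∑ s ∈ range N, V s * ((e⁻¹) ^ s) ^ t, heN, ?_⟩
  intro n
  have hper : ∀ m : ℕ, V m = V (m % N) := by
    intro m
    have h1 : ∀ k l : ℕ, V (l + N * k) = V l := by
      intro k
      induction k with
      | zero => intro l; simp
      | succ k ih =>
        intro l
        have : l + N * (k + 1) = (l + N * k) + N := by ring
        rw [this, hV, ih]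
    conv_lhs => rw [← Nat.mod_add_div m N]
    exact h1 _ _
  have hgeom : ∀ s ∈ range N, ∑ t ∈ range N, ((e⁻¹) ^ s * e ^ n) ^ t =
      if s = n % N then (N : ℂ) else 0 := by
    intro s hs
    have hs' := Finset.mem_range.mp hs
    split_ifs with h
    · have h1 : (e⁻¹) ^ s * e ^ n = 1 := by
        have h2 : e ^ n = e ^ s := by
          conv_lhs => rw [← Nat.mod_add_div n N, pow_add, pow_mul, heN, one_pow, mul_one]
          rw [h]
        rw [h2, inv_pow, inv_mul_cancel₀ (pow_ne_zero _ he0)]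
      rw [h1]
      simp only [one_pow, Finset.sum_const, Finset.card_range, nsmul_eq_mul, mul_one]
    · have h1 : (e⁻¹) ^ s * e ^ n ≠ 1 := by
        intro h2
        apply h
        have h3 : e ^ n = e ^ s := by
          rw [inv_pow] at h2
          have h4 : e ^ s ≠ 0 := pow_ne_zero _ he0
          field_simp at h2
          exact h2
        have h5 : e ^ (n % N) = e ^ s := by
          rw [← h3]
          conv_rhs => rw [← Nat.mod_add_div n N, pow_add, pow_mul, heN, one_pow, mul_one]
        exact (he.pow_inj (Nat.mod_lt _ hN) hs' h5).symm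
      have h2 : ((e⁻¹) ^ s * e ^ n) ^ N = 1 := by
        rw [mul_pow, ← pow_mul, ← pow_mul, mul_comm s N, mul_comm n N, pow_mul, pow_mul,
          inv_pow, heN, inv_one, one_pow, one_pow, one_mul]
      have h3 := geom_sum_mul ((e⁻¹) ^ s * e ^ n) N
      rw [h2, sub_self] at h3
      rcases mul_eq_zero.mp h3 with h4 | h4
      · exact h4
      · exact absurd (sub_eq_zero.mp h4) h1
  have hcalc : ∑ t ∈ range N, (1 / (N : ℂ)) * (∑ s ∈ range N, V s * ((e⁻¹) ^ s) ^ t) *
      (e ^ t) ^ n = (1 / (N : ℂ)) * ∑ s ∈ range N, V s *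
        ∑ t ∈ range N, ((e⁻¹) ^ s * e ^ n) ^ t := by
    calc ∑ t ∈ range N, (1 / (N : ℂ)) * (∑ s ∈ range N, V s * ((e⁻¹) ^ s) ^ t) * (e ^ t) ^ n
        = ∑ t ∈ range N, ∑ s ∈ range N, (1 / (N : ℂ)) * (V s * ((e⁻¹) ^ s * e ^ n) ^ t) := by
          apply Finset.sum_congr rfl
          intro t _
          rw [mul_assoc, Finset.sum_mul, Finset.mul_sum]
          apply Finset.sum_congr rfl
          intro s _
          rw [mul_pow]
          have : (e ^ t) ^ n = (e ^ n) ^ t := by rw [← pow_mul, ← pow_mul, mul_comm]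
          rw [this]
          ring
      _ = ∑ s ∈ range N, ∑ t ∈ range N, (1 / (N : ℂ)) * (V s * ((e⁻¹) ^ s * e ^ n) ^ t) :=
          Finset.sum_comm
      _ = _ := by
          rw [Finset.mul_sum]
          apply Finset.sum_congr rfl
          intro s _
          rw [Finset.mul_sum, Finset.mul_sum]
  rw [hcalc, Finset.sum_congr rfl (fun s hs => by rw [hgeom s hs]),
    Finset.sum_eq_single (n % N)]
  · rw [if_pos rfl, ← hper n]
    field_simp
  · intro s _ hs
    rw [if_neg hs, mul_zero]
  · intro h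
    exact absurd (Finset.mem_range.mpr (Nat.mod_lt n hN)) h

theorem kap_one : kap 1 = ((Real.sqrt Real.pi / 2 : ℝ) : ℂ) := by
  unfold kap
  rw [Complex.one_cpow]
  push_cast
  ring

/-- A direction in which the growth at the extremal root is larger. -/
theorem exists_tilt : ∃ w : ℂ, w.re = 1 ∧
    Real.sqrt Real.pi / 2 * Lam < (lam zeta (zeta ^ 2) 3 * kap w).re := by
  set l := lam zeta (zeta ^ 2) 3 with hl
  have hre : l.re = Lam := lam_star_re
  have him : 0 < l.im := lam_star_im
  have hLam : 0 < Lam := by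
    have h1 := Lam_ge
    have h2 := Z_pos
    linarith
  set b : ℝ := l.im / (4 * Lam) with hb
  have hbpos : 0 < b := by positivity
  set a : ℝ := Real.sqrt (1 + b ^ 2) with ha
  have ha2 : a ^ 2 = 1 + b ^ 2 := Real.sq_sqrt (by positivity)
  have hapos : 0 < a := Real.sqrt_pos.mpr (by positivity)
  have ha1 : 1 ≤ a := by
    by_contra hcon
    push Not at hcon
    nlinarith [sq_nonneg b]
  set v : ℂ := (a : ℂ) + (b : ℂ) * I with hv
  have hvre : v.re = a := by simp [hv]
  have hvim : v.im = b := by simp [hv]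
  refine ⟨v ^ 2, ?_, ?_⟩
  · rw [pow_two, Complex.mul_re, hvre, hvim]
    nlinarith
  · have hroot : (v ^ 2) ^ (1 / 2 : ℂ) = v := by
      have h1 := Complex.sq_cpow_two_inv (x := v) (by rw [hvre]; exact hapos)
      rw [one_div]
      exact h1
    have hkap : kap (v ^ 2) = ((Real.sqrt Real.pi / 2 : ℝ) : ℂ) * v⁻¹ := by
      unfold kap
      rw [hroot]
      push_cast
      rw [mul_comm (2 : ℂ) v, div_mul_eq_div_div]
      ring
    have hnorm : Complex.normSq v = 1 + 2 * b ^ 2 := by
      rw [Complex.normSq_apply, hvre, hvim]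
      nlinarith
    rw [hkap, mul_left_comm, Complex.re_ofReal_mul]
    have hsp : 0 < Real.sqrt Real.pi / 2 := by
      have := Real.sqrt_pos.mpr Real.pi_pos
      positivity
    apply mul_lt_mul_of_pos_left _ hsp
    have hval : (l * v⁻¹).re = (Lam * a + l.im * b) / (1 + 2 * b ^ 2) := by
      rw [Complex.mul_re, Complex.inv_re, Complex.inv_im, hvre, hvim, hnorm, hre]
      ring
    rw [hval, lt_div_iff₀ (by positivity)]
    have h1 : l.im = 4 * Lam * b := by
      rw [hb]
      field_simp
    rw [h1]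
    nlinarith [mul_pos hLam hbpos, mul_pos (mul_pos hLam hbpos) hbpos]

end Pool.Agent.R456.PP
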